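import Pool.Agent.Strip051.LC.E0.OutH

/-! # Small rests: the rows `A` with the unit circle and `W` above `h0` -/

namespace Pool.Agent.Strip051.LC.E0

open Pool.Agent.StripNear Pool.Agent.StripSquare Pool.Agent.Strip051 Pool.Agent.Strip051.Sweep

/-- Signs `(1, 1)`: the side `13` is too long, except in the lattice triangle. -/
theorem o2_a2_pp {X Y C t b : ℝ} (hX : 0 ≤ X) (ht : 0 ≤ t) (hb : 0 ≤ b) (hb1 : b ≤ 1 / 2)
    (hC : 0 ≤ C) (eX : X ^ 2 + t ^ 2 = 1) (eC : C ^ 2 + b ^ 2 = 1) (eY : Y = C - 1 / 2)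
    (hY : 0 ≤ Y) (hY1 : Y ≤ 1 / 2) (e : Y ^ 2 + (h0 + b) ^ 2 = 2 - C + 2 * h0 * b)
    (h : (X + Y) ^ 2 + (t + (h0 + b)) ^ 2 ≤ 3) : t ≤ 0 ∧ b ≤ 0 := by
  obtain ⟨b1, b2⟩ := h0_bd
  have k1 : 1 ≤ X + t := by
    refine le_of_sq2 (by positivity) ?_
    have := mul_nonneg hX ht
    nlinarith
  have k2 : 1 - b ^ 2 ≤ C := by
    have : C ≤ 1 := by linarith
    nlinarith
  have k3 := mul_nonneg (by linarith : 0 ≤ X + t - 1) hY
  have k4 : 3 - C + 2 * h0 * b + 2 * (X * Y + t * (h0 + b)) ≤ 3 := by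
    have : (X + Y) ^ 2 + (t + (h0 + b)) ^ 2 =
      (X ^ 2 + t ^ 2) + (Y ^ 2 + (h0 + b) ^ 2) + 2 * (X * Y + t * (h0 + b)) := by ring
    rw [this, eX, e] at h
    linarith
  have k5 := mul_nonneg ht (by linarith : 0 ≤ h0 + b - Y - 36 / 100)
  have k6 := mul_nonneg hb (by linarith : 0 ≤ 2 * h0 - b - 1)
  have k7 : b + 72 / 100 * t ≤ 0 := by
    nlinarith
  constructor <;> linarith

/-- Signs `(1, -1)`, `t` not small. -/
theorem o2_a2_mid {s X Y t b : ℝ} (hs : 0 < s) (hs1 : s ≤ 11 / 400) (hX : 1 / 2 ≤ X)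
    (eX : X ^ 2 + t ^ 2 = 1) (ht : 8 * s ≤ t) (ht1 : t ≤ h0 - 8 * s) (hb : 0 ≤ b)
    (hb1 : b ≤ 8 * s) (hY : 1 / 2 - b ^ 2 ≤ Y) :
    h0 * (1 + 2 * thr s) ≤ X * (h0 + b) + Y * t := by
  obtain ⟨b1, b2⟩ := h0_bd
  refine (line_thr hs hs1 ht (by linarith) (by linarith) eX).trans ?_
  have t0 : 0 ≤ t := by linarith
  have k1 := mul_nonneg (by linarith : 0 ≤ Y - (1 / 2 - b ^ 2)) t0
  have k2 : b * (b * t) ≤ b * X := by
    refine mul_le_mul_of_nonneg_left ?_ hb
    have := mul_le_mul (by linarith : b ≤ 22 / 100) (by linarith : t ≤ 1) t0 (by norm_num)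
    linarith
  nlinarith

/-- Signs `(1, -1)`, `t` small. -/
theorem o2_a2_small {s X Y C t b : ℝ} (hs : 0 < s) (hs1 : s ≤ 11 / 400) (hX : 0 ≤ X)
    (eX : X ^ 2 + t ^ 2 = 1) (ht : 0 ≤ t) (ht1 : t ≤ 8 * s) (hb : 0 ≤ b)
    (hb1 : b ≤ 8 * s) (hC : 0 ≤ C) (eC : C ^ 2 + b ^ 2 = 1) (eY : Y = C - 1 / 2)
    (h : 8 * s ≤ t + b) :
    h0 * (1 + 2 * thr s) ≤ X * (h0 + b) + Y * t := by
  obtain ⟨b1, b2⟩ := h0_bd
  have hh := h0_pos
  have u0 : 0 ≤ t + b := by linarith
  have u1 : t + b ≤ 44 / 100 := by linarith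
  obtain ⟨D, D0, eD⟩ : ∃ D : ℝ, 0 ≤ D ∧ D ^ 2 + (t + b) ^ 2 = 1 := by
    have : (t + b) ^ 2 ≤ 1 := by nlinarith
    exact ⟨√(1 - (t + b) ^ 2), Real.sqrt_nonneg _, by
      rw [Real.sq_sqrt (by linarith)]; ring⟩
  refine (line_thr hs hs1 h (by linarith) D0 eD).trans ?_
  have k1 : D ≤ X := by
    refine le_of_sq2 hX ?_
    have := mul_nonneg hb (by linarith : 0 ≤ 2 * t + b)
    nlinarith
  have k2 := mul_le_mul_of_nonneg_left k1 hh.le
  have k3 : 1 - t ^ 2 ≤ X := by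
    have : X ≤ 1 := by
      refine le_of_sq2 zero_le_one ?_
      nlinarith
    nlinarith
  have k4 : 1 - b ^ 2 ≤ C := by
    have : C ≤ 1 := by
      refine le_of_sq2 zero_le_one ?_
      nlinarith
    nlinarith
  have k5 := mul_nonneg hb (by linarith : 0 ≤ X - (1 - t ^ 2))
  have k6 := mul_nonneg ht (by linarith : 0 ≤ C - (1 - b ^ 2))
  have k7 : t * (t + b) ≤ 22 / 100 * (44 / 100) :=
    mul_le_mul (by linarith) u1 u0 (by norm_num)
  have k8 := mul_nonneg hb (by linarith : 0 ≤ 22 / 100 * (44 / 100) - t * (t + b))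
  rw [eY]
  nlinarith

/-- `x = c1 t`, `y = Wc t' = C - 1/2`, `C^2 + (t' - h0)^2 = 1` (`upp_sq`), `0 <= y <= 1/2`
(`upp_bd`). Signs (-1,1): cross product `<= 0`, contradiction to `cross_ge`. (-1,-1): `c = y t - x t'
<= 1/2 < h0`. (1,1): `o2_a2_pp`. (1,-1): `c = c1 t * t' + y t`, and `t + t' <= 2 h0`, so `t <= h0`.
If `t' >= h0 + 8 s`: `upp_side` with `side23`. Else `t <= h0 - 8 s` (window `V`), and
`o2_a2_mid`, `o2_a2_small`. -/
theorem rowA_cir_upp : RowA NCir NUpp := by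
  intro s x y t t' σ σ' hs hs1 hP hQ hσ hσ' hS hc
  obtain ⟨rfl, t0, t1⟩ := hP
  obtain ⟨rfl, u1, u2⟩ := hQ
  obtain ⟨b1, b2⟩ := h0_bd
  have hq := h0_sq'
  have hh := h0_pos
  have hX := c1_nonneg t
  have eX := c1_sq t0 t1.le
  have h3 : t' ^ 2 ≤ 3 := by
    have := pow_le_pow_left₀ (by linarith : 0 ≤ t') (by linarith : t' ≤ 17 / 10) 2
    linarith
  obtain ⟨C, C0, eC, eW, e1, -⟩ := upp_sq u1 h3
  obtain ⟨w1, w2, w3⟩ := upp_bd u1 h3
  have u0 : 0 ≤ t' := by linarith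
  have hc' : 0 ≤ σ * c1 t * (t + t') - (σ * c1 t + σ' * Wc t') * t := by
    have : σ * c1 t * (t + t') - (σ * c1 t + σ' * Wc t') * t =
      σ * c1 t * t' - σ' * Wc t' * t := by ring
    rw [this]
    exact hc
  have hge := cross_ge hS hc'
  have hs23 := side23 hS hc'
  generalize c1 t = X at *
  rcases hσ with rfl | rfl
  · rcases hσ' with rfl | rfl
    · -- `(1, 1)`
      left
      left
      have hc3 := hS.c3
      obtain ⟨b, rfl⟩ : ∃ b, t' = h0 + b := ⟨t' - h0, by ring⟩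
      rw [add_sub_cancel_left] at eC e1 w3
      generalize Wc (h0 + b) = Y at *
      have := o2_a2_pp (X := X) (Y := Y) (C := C) (t := t) (b := b) hX t0 (by linarith)
        (by linarith) C0 eX eC eW w1 w2 e1 (by linarith)
      have b0 : b = 0 := by linarith [this.2]
      have t00 : t = 0 := by linarith [this.1]
      subst b0
      subst t00
      refine ⟨by linarith, ?_, ?_⟩
      · rw [abs_le]
        constructor <;> linarith
      · rw [abs_le]
        constructor <;> linarith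
    · -- `(1, -1)`
      have hc3 := hS.c3
      have k1 : t + t' ≤ 2 * h0 := by
        refine le_of_sq2 (by positivity) ?_
        have := sq_nonneg (1 * X + -1 * Wc t')
        nlinarith
      rcases le_or_gt (h0 + 8 * s) t' with h1 | h1
      · right
        refine thr_of_cross (upp_side hs hs1 h1 u2 hc' ?_)
        have : (1 * X + -1 * Wc t' - 1 * X) ^ 2 = Wc t' ^ 2 := by ring
        rw [this] at hs23
        exact hs23
      rcases le_or_gt (h0 - 8 * s) t with h2 | h2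
      · left
        right
        right
        refine ⟨?_, ?_, ?_⟩ <;> rw [abs_le] <;> constructor <;> linarith
      have hX2 : 1 / 2 ≤ X := by
        refine le_of_sq2 hX ?_
        have := pow_le_pow_left₀ t0 (by linarith : t ≤ h0) 2
        linarith
      rcases le_or_gt (8 * s) t with h4 | h4
      · right
        refine thr_of_cross ?_
        have := o2_a2_mid (s := s) (X := X) (Y := Wc t') (t := t) (b := t' - h0) hs hs1 hX2 eX h4
          h2.le (by linarith) (by linarith) w3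
        linarith
      rcases le_or_gt (8 * s) (t + (t' - h0)) with h5 | h5
      · right
        refine thr_of_cross ?_
        have := o2_a2_small (s := s) (X := X) (Y := Wc t') (C := C) (t := t) (b := t' - h0) hs hs1
          hX eX t0 h4.le (by linarith) (by linarith) C0 eC eW h5
        linarith
      · left
        left
        refine ⟨by linarith, ?_, ?_⟩ <;> rw [abs_le] <;> constructor <;> linarith
  · exfalso
    have p1 := mul_nonneg hX u0
    have p2 := mul_nonneg w1 t0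
    have p3 := mul_le_mul w2 t1.le t0 (by norm_num)
    rcases hσ' with rfl | rfl
    · linarith
    · linarith

end Pool.Agent.Strip051.LC.E0
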