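import Pool.Agent.Strip051.LC.E0.OutH

/-! # Small rests: the rows `B` with the unit circle at `12` and `W` at `13` -/

namespace Pool.Agent.Strip051.LC.E0

open Pool.Agent.StripNear Pool.Agent.StripSquare Pool.Agent.Strip051 Pool.Agent.Strip051.Sweep

/-- The unit circle at `12` and `W` below `h0` at `13` on the same side: the side `23` is too
short. -/
theorem o2_b1_short {x t a C : ℝ} (ex : x ^ 2 + t ^ 2 = 1) (eC : C ^ 2 + a ^ 2 = 1) (x0 : 0 < x)
    (t0 : 0 ≤ t) (a0 : 0 < a) (C0 : 0 ≤ C) (ah : a ≤ h0) (hw : 0 < h0 * x - t / 2) :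
    (C + 1 / 2 - x) ^ 2 + (h0 - a - t) ^ 2 < 1 := by
  have hq := h0_sq'
  have hh := h0_pos
  have hw2 : 0 < C * t + a * x := by
    have := mul_nonneg C0 t0
    have := mul_pos a0 x0
    linarith
  have hS0 : 0 ≤ (x / 2 + h0 * t) + (C * x - a * t) := by
    have k1 := mul_nonneg C0 x0.le
    have k2 := mul_nonneg (sub_nonneg.2 ah) t0
    have k3 : (x / 2 + h0 * t) + (C * x - a * t) = x / 2 + C * x + (h0 - a) * t := by ring
    rw [k3]
    linarith
  have hc1 : 0 < 1 + (C / 2 - h0 * a) := by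
    have k1 : C ^ 2 ≤ 1 := by nlinarith
    have k2 : h0 * a ≤ 3 / 4 := by nlinarith
    linarith
  -- the product
  have e1 : (x / 2 + h0 * t) * (C * x - a * t) =
      (C / 2 - h0 * a) + (h0 * x - t / 2) * (C * t + a * x) := by
    linear_combination (C / 2 - h0 * a) * ex
  have e2 : (x / 2 + h0 * t) ^ 2 + (C * x - a * t) ^ 2 -
      2 * ((x / 2 + h0 * t) * (C * x - a * t)) * (C / 2 - h0 * a) =
      1 - (C / 2 - h0 * a) ^ 2 := by
    have f1 : (x / 2 + h0 * t) ^ 2 + (h0 * x - t / 2) ^ 2 = 1 := by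
      linear_combination (x ^ 2 + t ^ 2) * hq + ex
    have f2 : (C * x - a * t) ^ 2 + (C * t + a * x) ^ 2 = 1 := by
      linear_combination (x ^ 2 + t ^ 2) * eC + ex
    have f5 : C / 2 - h0 * a = (x / 2 + h0 * t) * (C * x - a * t) -
        (h0 * x - t / 2) * (C * t + a * x) := by
      linear_combination -e1
    rw [f5]
    linear_combination (h0 * x - t / 2) ^ 2 * f2 + (1 - (C * x - a * t) ^ 2) * f1
  have e3 : (C + 1 / 2 - x) ^ 2 + (h0 - a - t) ^ 2 =
      1 + 2 * (1 + (C / 2 - h0 * a)) - 2 * ((x / 2 + h0 * t) + (C * x - a * t)) := by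
    linear_combination ex + eC + hq
  have e4 : (1 + (C / 2 - h0 * a)) ^ 2 < ((x / 2 + h0 * t) + (C * x - a * t)) ^ 2 := by
    have k := mul_pos (mul_pos hw hw2) hc1
    have e5 : ((x / 2 + h0 * t) + (C * x - a * t)) ^ 2 - (1 + (C / 2 - h0 * a)) ^ 2 =
        2 * ((h0 * x - t / 2) * (C * t + a * x) * (1 + (C / 2 - h0 * a))) := by
      linear_combination e2 + 2 * (1 + (C / 2 - h0 * a)) * e1
    linarith
  have e6 := lt_of_pow_lt_pow_left₀ 2 hS0 e4
  rw [e3]
  linarith

/-- The lower bound next to the window `H1`. -/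
theorem o2_b1_near {s δ η : ℝ} (hs : 0 < s) (hs1 : s ≤ 11 / 400) (d0 : 0 ≤ δ) (d8 : δ ≤ 8 * s)
    (n0 : 0 ≤ η) (n8 : 8 * s - δ ≤ η) :
    h0 + 32 / 10 * s ≤ (1 / 2 + 134 / 100 * η) * (h0 + δ) +
      (1 / 2 - 508 / 1000 * δ ^ 2) * (h0 - η) := by
  obtain ⟨b1, b2⟩ := h0_bd
  have v1 := mul_nonneg n0 (by linarith : 0 ≤ h0 - 86602 / 100000)
  have v2 := mul_nonneg (sq_nonneg δ) (by linarith : 0 ≤ 86603 / 100000 - h0)
  have v3 := mul_nonneg (sq_nonneg δ) n0
  have v4 := mul_nonneg d0 (by linarith : 0 ≤ η - (8 * s - δ))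
  have v5 := mul_nonneg d0 (by linarith : 0 ≤ 8 * s - δ)
  have v6 := mul_nonneg hs.le (by linarith : 0 ≤ 8 * s - δ)
  have v7 := mul_nonneg hs.le (by linarith : 0 ≤ 11 / 400 - s)
  have e : (1 / 2 + 134 / 100 * η) * (h0 + δ) + (1 / 2 - 508 / 1000 * δ ^ 2) * (h0 - η) -
      (h0 + 32 / 10 * s) = 134 / 100 * (η * (h0 - 86602 / 100000)) +
      508 / 1000 * (δ ^ 2 * (86603 / 100000 - h0)) + 508 / 1000 * (δ ^ 2 * η) +
      134 / 100 * (δ * (η - (8 * s - δ))) +
      (134 / 100 + 508 / 1000 * (86603 / 100000)) * (δ * (8 * s - δ)) +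
      (134 / 100 * (86602 / 100000) - 1 / 2) * (η - (8 * s - δ)) +
      ((134 / 100 * (86602 / 100000) - 1 / 2) * (8 * s - δ) + δ / 2 - 32 / 10 * s -
        8 * (508 / 1000 * (86603 / 100000)) * (s * δ)) := by
    ring
  have k : 0 ≤ (134 / 100 * (86602 / 100000) - 1 / 2) * (8 * s - δ) + δ / 2 - 32 / 10 * s -
        8 * (508 / 1000 * (86603 / 100000)) * (s * δ) := by
    linarith
  linarith

/-- All sign patterns are impossible. -/
theorem rowB_cir_low : RowB NCir NLow := by
  intro s x y t t' σ σ' hs hs1 hP hQ hσ hσ' h hc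
  exfalso
  obtain ⟨rfl, ht0, ht1⟩ := hP
  obtain ⟨hy, hT0, hT1⟩ := hQ
  have hh := h0_pos
  have hq := h0_sq'
  obtain ⟨b1, b2⟩ := h0_bd
  have htT : t ≤ t + t' := by linarith [h.t1]
  have ex := c1_sq ht0 ht1.le
  have x0 := c1_nonneg t
  have xh : 1 / 2 ≤ c1 t := (c1_half ht0 ht1.le).1 (by linarith)
  obtain ⟨y1, y2, -, -⟩ := low_bd hT0 hT1
  rw [← hy] at y1 y2
  have hg := cross_ge h hc
  rcases hσ with rfl | rfl <;> rcases hσ' with rfl | rfl
  · -- the side `23` is too short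
    obtain ⟨C, C0, eC, eW, -, -⟩ := low_sq hT0 hT1
    have hw : 0 < h0 * c1 t - t / 2 := by
      have : h0 * (1 / 2) ≤ h0 * c1 t := mul_le_mul_of_nonneg_left xh hh.le
      linarith
    have k := o2_b1_short ex eC (by linarith) ht0 (by linarith : 0 < h0 - (t + t')) C0
      (by linarith) hw
    have k1 := h.b1
    rw [hy, eW] at k1
    have k2 : h0 - (h0 - (t + t')) - t = t' := by ring
    rw [k2] at k
    have k3 : (1 * (C + 1 / 2) - 1 * c1 t) = C + 1 / 2 - c1 t := by ring
    rw [k3] at k1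
    linarith
  · -- the side `23` is too long
    obtain ⟨C, C0, eC, eW, -, -⟩ := low_sq hT0 hT1
    have k1 := h.b3
    have c1T : c1 (t + t') ≤ c1 t := c1_anti ht0 htT (by linarith)
    have ch1 := c1_chord le_rfl hT0 hT1.le h0_lt_one.le
    have ch2 := chord_aux (a := 0) (b := h0) (x := h0 - (t + t')) (A := 1) (B := 1 / 2) C0
      (by norm_num) (by linarith) eC (by linarith) (by linarith)
    have c10 : c1 0 = 1 := by
      unfold c1
      norm_num
    rw [c10, c1_h0] at ch1
    have ch3 : h0 * (3 / 2) ≤ h0 * (c1 (t + t') + C) := by linarith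
    have ch4 : 3 / 2 ≤ c1 (t + t') + C := le_of_mul_le_mul_left ch3 hh
    have k2 : 2 ≤ c1 t + y := by
      rw [hy, eW]
      linarith
    have k3 : (-1 * y - 1 * c1 t) ^ 2 = (c1 t + y) ^ 2 := by ring
    rw [k3] at k1
    have k4 := pow_le_pow_left₀ (by norm_num : (0 : ℝ) ≤ 2) k2 2
    nlinarith [sq_nonneg t']
  · -- negative area
    have k1 := mul_nonneg x0 hT0
    have k2 : 0 ≤ y * t := mul_nonneg (by linarith) ht0
    linarith
  · -- small area
    have c1T : c1 (t + t') ≤ c1 t := c1_anti ht0 htT (by linarith)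
    have hT : 1 / 2 ≤ c1 (t + t') := (c1_half hT0 (by linarith)).1 hT1.le
    have k1 : y * t ≤ y * (t + t') := mul_le_mul_of_nonneg_left htT (by linarith)
    have k2 : 1 / 2 * (t + t') ≤ c1 t * (t + t') :=
      mul_le_mul_of_nonneg_right xh hT0
    have k3 : y * (t + t') ≤ 3 / 2 * (t + t') := mul_le_mul_of_nonneg_right y2 hT0
    linarith

/-- Outside the windows the excess is at least the threshold. -/
theorem rowB_cir_upp : RowB NCir NUpp := by
  intro s x y t t' σ σ' hs hs1 hP hQ hσ hσ' h hc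
  obtain ⟨rfl, ht0, ht1⟩ := hP
  obtain ⟨hy, hT0, hT1⟩ := hQ
  have hh := h0_pos
  have hq := h0_sq'
  obtain ⟨b1, b2⟩ := h0_bd
  have htT : t ≤ t + t' := by linarith [h.t1]
  have ex := c1_sq ht0 ht1.le
  have x0 := c1_nonneg t
  have hT3 : (t + t') ^ 2 ≤ 3 := by
    have := pow_le_pow_left₀ (by linarith : 0 ≤ t + t') (by linarith : t + t' ≤ 17 / 10) 2
    linarith
  obtain ⟨y0, y2, y3⟩ := upp_bd hT0 hT3
  rw [← hy] at y0 y2 y3
  have hg := cross_ge h hc
  -- far from `h0`
  rcases le_or_gt (h0 + 8 * s) (t + t') with hfar | hnear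
  · right
    apply thr_of_cross
    refine upp_side hs hs1 hfar hT1 hc ?_
    have k := side13 h hc
    have k1 : (σ' * y) ^ 2 = Wc (t + t') ^ 2 := by
      rcases hσ' with rfl | rfl <;> rw [hy] <;> ring
    rw [k1] at k
    exact k
  obtain ⟨C, C0, eC, eW, -, -⟩ := upp_sq hT0 hT3
  rcases hσ with rfl | rfl <;> rcases hσ' with rfl | rfl
  · -- same side
    have htδ : t ≤ t + t' - h0 := by
      by_contra hcon
      rw [not_le] at hcon
      have k1 := h.b1
      rw [hy, eW] at k1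
      have hxC : c1 t ≤ C := by
        refine le_of_sq2 C0 ?_
        have := pow_le_pow_left₀ (by linarith : 0 ≤ t + t' - h0) hcon.le 2
        linarith
      have C1 : C ≤ 1 := by
        refine le_of_sq2 zero_le_one ?_
        nlinarith
      have k2 : 0 ≤ (C - c1 t) * (1 - (C - c1 t)) := mul_nonneg (by linarith) (by linarith)
      have k3 : 0 < (t - (t + t' - h0)) * (2 * h0 - (t - (t + t' - h0))) :=
        mul_pos (by linarith) (by linarith)
      have k4 : (1 * (C - 1 / 2) - 1 * c1 t) ^ 2 + t' ^ 2 =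
          1 - (C - c1 t) * (1 - (C - c1 t)) -
            (t - (t + t' - h0)) * (2 * h0 - (t - (t + t' - h0))) := by
        linear_combination hq
      rw [k4] at k1
      linarith
    left
    left
    refine ⟨by linarith, ?_, ?_⟩ <;> rw [abs_le] <;> constructor <;> linarith
  · -- opposite sides
    have hth : t ≤ h0 := by
      by_contra hcon
      rw [not_le] at hcon
      have k1 := h.b1
      rw [hy, eW] at k1
      have hx : c1 t ≤ 1 / 2 := (c1_half ht0 ht1.le).2 hcon.le
      have C1 : 1 / 2 ≤ C := by linarith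
      have k2 : 0 ≤ (1 / 2 - c1 t) * (2 * C - (1 / 2 - c1 t)) :=
        mul_nonneg (by linarith) (by linarith)
      have k3 : 0 < (t - h0) * (2 * (t + t' - h0) - (t - h0)) :=
        mul_pos (by linarith) (by linarith [h.t1])
      have k4 : (-1 * (C - 1 / 2) - 1 * c1 t) ^ 2 + t' ^ 2 =
          1 - (1 / 2 - c1 t) * (2 * C - (1 / 2 - c1 t)) -
            (t - h0) * (2 * (t + t' - h0) - (t - h0)) := by
        linear_combination eC
      rw [k4] at k1
      linarith
    rcases le_or_gt t (8 * s) with ht8 | ht8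
    · left
      left
      refine ⟨ht8, ?_, ?_⟩ <;> rw [abs_le] <;> constructor <;> linarith
    rcases le_or_gt t' (8 * s) with ht'8 | ht'8
    · left
      right
      left
      refine ⟨?_, ht'8, ?_⟩ <;> rw [abs_le] <;> constructor <;> linarith
    right
    apply thr_of_cross
    have hx : 1 / 2 ≤ c1 t := (c1_half ht0 ht1.le).1 hth
    have ecr : 1 * c1 t * (t + t') - -1 * y * t = c1 t * (t + t') + y * t := by ring
    rw [ecr]
    obtain ⟨δ, hδ⟩ : ∃ δ, δ = t + t' - h0 := ⟨_, rfl⟩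
    have hδ' : t + t' = h0 + δ := by linarith
    rw [← hδ] at eC y3
    rw [hδ']
    have d0 : 0 ≤ δ := by linarith
    have d8 : δ < 8 * s := by linarith
    rcases le_or_gt t (h0 - 5 * s) with h5 | h5
    · refine (line_thr hs hs1 ht8.le h5 x0 ex).trans ?_
      have k1 : δ * t ≤ 1 / 2 := by
        have := mul_le_mul (by linarith : δ ≤ 1 / 2) ht1.le ht0 (by norm_num)
        linarith
      have k2 : 0 ≤ δ * (c1 t - δ * t) := mul_nonneg d0 (by linarith)
      have k3 : (1 / 2 - δ ^ 2) * t ≤ y * t := mul_le_mul_of_nonneg_right y3 ht0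
      linarith
    · refine (thr_lin hs hs1).trans ?_
      obtain ⟨η, hη⟩ : ∃ η, t = h0 - η := ⟨h0 - t, by ring⟩
      have n0 : 0 ≤ η := by linarith
      have n5 : η ≤ 5 * s := by linarith
      have n8 : 8 * s - δ ≤ η := by linarith
      have kx : 1 / 2 + 134 / 100 * η ≤ c1 t := by
        refine le_of_sq2 x0 ?_
        have e : c1 t ^ 2 = 1 / 4 + 2 * h0 * η - η ^ 2 := by
          rw [hη] at ex ⊢
          linear_combination ex - hq
        rw [e]
        have v1 := mul_nonneg n0 (by linarith : 0 ≤ 1375 / 10000 - η)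
        have v2 := mul_nonneg n0 (by linarith : 0 ≤ h0 - 86602 / 100000)
        linarith
      have kC : 1 - 508 / 1000 * δ ^ 2 ≤ C := by
        refine le_of_sq2 C0 ?_
        have u1 := pow_le_pow_left₀ d0 (by linarith : δ ≤ 22 / 100) 2
        have u2 := mul_nonneg (sq_nonneg δ) (by linarith : 0 ≤ (22 / 100) ^ 2 - δ ^ 2)
        linarith
      have ky : 1 / 2 - 508 / 1000 * δ ^ 2 ≤ y := by
        rw [hy, eW]
        linarith
      have m1 := mul_le_mul_of_nonneg_right kx (by linarith : 0 ≤ h0 + δ)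
      have m2 := mul_le_mul_of_nonneg_right ky ht0
      have m4 := o2_b1_near hs hs1 d0 d8.le n0 n8
      rw [← hη] at m4
      exact m4.trans (add_le_add m1 m2)
  · -- negative area
    exfalso
    have k1 := mul_nonneg x0 (by linarith : 0 ≤ t + t')
    have k2 : 0 ≤ y * t := mul_nonneg y0 ht0
    linarith
  · -- small area
    exfalso
    have k1 := mul_nonneg x0 (by linarith : 0 ≤ t + t')
    have k2 : y * t ≤ 1 / 2 * 1 := mul_le_mul y2 ht1.le ht0 (by norm_num)
    linarith

end Pool.Agent.Strip051.LC.E0
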