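import Pool.Agent.Strip051.LC.E0.OutH

/-! # Small rests: the rows `B` with `W` at `12` and the unit circle at `13` -/

namespace Pool.Agent.Strip051.LC.E0

open Pool.Agent.StripNear Pool.Agent.StripSquare Pool.Agent.Strip051 Pool.Agent.Strip051.Sweep

/-- `W` below `h0` and the unit circle below `h0` on the same side: the side `23` is too short. -/
theorem o2_b2_short {x t a C : ℝ} (ex : x ^ 2 + t ^ 2 = 1) (eC : C ^ 2 + a ^ 2 = 1) (x0 : 0 < x)
    (t0 : 0 ≤ t) (a0 : 0 < a) (C0 : 0 ≤ C) (ah : a ≤ h0) (hw : 0 < h0 * x - t / 2) :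
    (C + 1 / 2 - x) ^ 2 + (h0 - a - t) ^ 2 < 1 := by
  have hq := h0_sq'
  have hh := h0_pos
  have hw2 : 0 < C * t + a * x := by
    have := mul_nonneg C0 t0
    have := mul_pos a0 x0
    linarith
  have hS0 : 0 ≤ (x / 2 + h0 * t) + (C * x - a * t) := by
    have k1 := mul_nonneg C0 x0.le
    have k2 := mul_nonneg (sub_nonneg.2 ah) t0
    have k3 : (x / 2 + h0 * t) + (C * x - a * t) = x / 2 + C * x + (h0 - a) * t := by ring
    rw [k3]
    linarith
  have hc1 : 0 < 1 + (C / 2 - h0 * a) := by
    have k1 : C ^ 2 ≤ 1 := by nlinarith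
    have k2 : h0 * a ≤ 3 / 4 := by nlinarith
    linarith
  -- the product
  have e1 : (x / 2 + h0 * t) * (C * x - a * t) =
      (C / 2 - h0 * a) + (h0 * x - t / 2) * (C * t + a * x) := by
    linear_combination (C / 2 - h0 * a) * ex
  have e2 : (x / 2 + h0 * t) ^ 2 + (C * x - a * t) ^ 2 -
      2 * ((x / 2 + h0 * t) * (C * x - a * t)) * (C / 2 - h0 * a) =
      1 - (C / 2 - h0 * a) ^ 2 := by
    have f1 : (x / 2 + h0 * t) ^ 2 + (h0 * x - t / 2) ^ 2 = 1 := by
      linear_combination (x ^ 2 + t ^ 2) * hq + ex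
    have f2 : (C * x - a * t) ^ 2 + (C * t + a * x) ^ 2 = 1 := by
      linear_combination (x ^ 2 + t ^ 2) * eC + ex
    have f5 : C / 2 - h0 * a = (x / 2 + h0 * t) * (C * x - a * t) -
        (h0 * x - t / 2) * (C * t + a * x) := by
      linear_combination -e1
    rw [f5]
    linear_combination (h0 * x - t / 2) ^ 2 * f2 + (1 - (C * x - a * t) ^ 2) * f1
  have e3 : (C + 1 / 2 - x) ^ 2 + (h0 - a - t) ^ 2 =
      1 + 2 * (1 + (C / 2 - h0 * a)) - 2 * ((x / 2 + h0 * t) + (C * x - a * t)) := by
    linear_combination ex + eC + hq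
  have e4 : (1 + (C / 2 - h0 * a)) ^ 2 < ((x / 2 + h0 * t) + (C * x - a * t)) ^ 2 := by
    have k := mul_pos (mul_pos hw hw2) hc1
    have e5 : ((x / 2 + h0 * t) + (C * x - a * t)) ^ 2 - (1 + (C / 2 - h0 * a)) ^ 2 =
        2 * ((h0 * x - t / 2) * (C * t + a * x) * (1 + (C / 2 - h0 * a))) := by
      linear_combination e2 + 2 * (1 + (C / 2 - h0 * a)) * e1
    linarith
  have e6 := lt_of_pow_lt_pow_left₀ 2 hS0 e4
  rw [e3]
  linarith

/-- The unit circle just above `h0` lies below its tangent. -/
theorem o2_b2_tan {e : ℝ} (e0 : 0 ≤ e) (e1 : h0 + e ≤ 1) :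
    c1 (h0 + e) ≤ 1 / 2 - 17 / 10 * e := by
  obtain ⟨b1, b2⟩ := h0_bd
  have hq := h0_sq'
  have hh := h0_pos
  refine le_of_sq2 (by linarith) ?_
  have k := c1_sq (by linarith : 0 ≤ h0 + e) e1
  have k1 : c1 (h0 + e) ^ 2 = 1 / 4 - 2 * h0 * e - e ^ 2 := by linear_combination k - hq
  rw [k1]
  have k2 := mul_nonneg e0 (by linarith : 0 ≤ h0 - 86602 / 100000)
  nlinarith [sq_nonneg e]

/-- Outside the windows the excess is at least the threshold. -/
theorem rowB_low_cir : RowB NLow NCir := by
  intro s x y t t' σ σ' hs hs1 hP hQ hσ hσ' h hc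
  obtain ⟨hx, ht0, ht1⟩ := hP
  obtain ⟨rfl, hT0, hT1⟩ := hQ
  have hh := h0_pos
  have hq := h0_sq'
  obtain ⟨b1, b2⟩ := h0_bd
  have htT : t ≤ t + t' := by linarith [h.t1]
  have ey := c1_sq hT0 hT1.le
  have y0 := c1_nonneg (t + t')
  have y1 : c1 (t + t') ≤ 1 := by
    refine le_of_sq2 zero_le_one ?_
    have := sq_nonneg (t + t')
    linarith
  obtain ⟨x1, x2, -, x4⟩ := low_bd ht0 ht1
  rw [← hx] at x1 x2 x4
  have hg := cross_ge h hc
  obtain ⟨C, C0, eC, eW, -, -⟩ := low_sq ht0 ht1
  -- the side `12` decides in the middle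
  by_cases hmid : 5 * s ≤ t ∧ t ≤ h0 - 8 * s
  · right
    apply thr_of_cross
    refine low_side hs hs1 hmid.1 hmid.2 hc ?_
    have k := side12 h hc
    have k1 : (σ * x) ^ 2 = Wc t ^ 2 := by
      rcases hσ with rfl | rfl <;> rw [hx] <;> ring
    rw [k1] at k
    exact k
  have hend : t < 5 * s ∨ h0 - 8 * s < t := by
    rcases lt_or_ge t (5 * s) with h5 | h5
    · exact Or.inl h5
    · right
      by_contra hcon
      rw [not_lt] at hcon
      exact hmid ⟨h5, hcon⟩
  rcases hσ with rfl | rfl <;> rcases hσ' with rfl | rfl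
  · -- same side
    have hTh : h0 ≤ t + t' := by
      by_contra hcon
      rw [not_le] at hcon
      have yh := (c1_half hT0 hT1.le).1 hcon.le
      have hw : 0 < h0 * c1 (t + t') - (t + t') / 2 := by
        have : h0 * (1 / 2) ≤ h0 * c1 (t + t') := mul_le_mul_of_nonneg_left yh hh.le
        linarith
      have k := o2_b2_short ey eC (by linarith) hT0 (by linarith : 0 < h0 - t) C0
        (by linarith) hw
      have k1 := h.b1
      rw [hx, eW] at k1
      have k2 : h0 - (h0 - t) - (t + t') = -t' := by ring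
      rw [k2] at k
      have k3 : (1 * c1 (t + t') - 1 * (C + 1 / 2)) ^ 2 = (C + 1 / 2 - c1 (t + t')) ^ 2 := by ring
      rw [k3] at k1
      rw [neg_sq] at k
      linarith
    have yh := (c1_half hT0 hT1.le).2 hTh
    rcases hend with h5 | h8
    · -- next to the window `H0`
      rcases le_or_gt (t + t') (h0 + 8 * s) with hT8 | hT8
      · left
        left
        refine ⟨by linarith, ?_, ?_⟩ <;> rw [abs_le] <;> constructor <;> linarith
      right
      apply thr_of_cross
      refine (thr_lin hs hs1).trans ?_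
      have kx := low_near ht0 (by linarith)
      rw [← hx] at kx
      have m1 := mul_le_mul_of_nonneg_right kx hT0
      have m2 := mul_le_mul_of_nonneg_right yh ht0
      have m3 := mul_nonneg ht0 (by linarith : 0 ≤ t + t' - 5 / 13)
      linarith
    · -- next to the window `H1`
      rcases le_or_gt t' (8 * s) with ht8 | ht8
      · left
        right
        left
        refine ⟨?_, ht8, ?_⟩ <;> rw [abs_le] <;> constructor <;> linarith
      right
      apply thr_of_cross
      obtain ⟨δ, hδ⟩ : ∃ δ, δ = h0 - t := ⟨_, rfl⟩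
      obtain ⟨e, he⟩ : ∃ e, e = t + t' - h0 := ⟨_, rfl⟩
      have hT' : t + t' = h0 + e := by linarith
      have ht' : t = h0 - δ := by linarith
      have d0 : 0 ≤ δ := by linarith
      have d8 : δ ≤ 8 * s := by linarith
      have e0 : 0 ≤ e := by linarith
      have e8 : 8 * s - δ ≤ e := by linarith
      rw [← hδ] at eC
      have ky := o2_b2_tan e0 (by linarith)
      rw [← hT'] at ky
      have s8 := c1_sq (by linarith : 0 ≤ 8 * s) (by linarith)
      have kl := line_thr hs hs1 le_rfl (by linarith) (c1_nonneg (8 * s)) s8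
      have kC : c1 (8 * s) ≤ C := by
        refine le_of_sq2 C0 ?_
        have := pow_le_pow_left₀ d0 d8 2
        linarith
      have kC2 : 97 / 100 ≤ C := by
        refine le_of_sq2 C0 ?_
        have := pow_le_pow_left₀ d0 (by linarith : δ ≤ 22 / 100) 2
        linarith
      refine kl.trans ?_
      have m1 := mul_le_mul_of_nonneg_left kC hh.le
      have m2 := mul_le_mul_of_nonneg_right ky ht0
      have m3 := mul_nonneg e0 (by linarith : 0 ≤ C - 97 / 100)
      have m4 := mul_nonneg e0 (by linarith : 0 ≤ h0 - 86602 / 100000)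
      have m5 := mul_nonneg e0 (by linarith : 0 ≤ 22 / 100 - δ)
      have k5 : 1 * x * (t + t') - 1 * c1 (t + t') * t =
          (C + 1 / 2) * (h0 + e) - c1 (t + t') * t := by
        rw [hx, eW, hT']
        ring
      rw [k5]
      have k6 : (C + 1 / 2) * (h0 + e) - (1 / 2 - 17 / 10 * e) * t =
          h0 * C + δ / 2 + e * C + e / 2 + 17 / 10 * (e * h0) - 17 / 10 * (e * δ) := by
        rw [ht']
        ring
      linarith
  · -- opposite sides
    have k3 := h.b3
    have k4 : (-1 * c1 (t + t') - 1 * x) ^ 2 = (x + c1 (t + t')) ^ 2 := by ring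
    rw [k4] at k3
    have ecr : 1 * x * (t + t') - -1 * c1 (t + t') * t = x * (t + t') + c1 (t + t') * t := by
      ring
    rcases hend with h5 | h8
    · rcases le_or_gt (t + t') (h0 + 8 * s) with hT8 | hT8
      · rcases le_or_gt (h0 - 8 * s) t' with ht8 | ht8
        · left
          left
          refine ⟨by linarith, ?_, ?_⟩ <;> rw [abs_le] <;> constructor <;> linarith
        · -- the side `23` is too long
          exfalso
          have hTh : t + t' < h0 := by linarith
          have yh : 1 / 2 < c1 (t + t') := by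
            have k5 : (t + t') ^ 2 < h0 ^ 2 := pow_lt_pow_left₀ hTh hT0 (by norm_num)
            have k6 : (1 / 2 : ℝ) ^ 2 < c1 (t + t') ^ 2 := by linarith
            exact lt_of_pow_lt_pow_left₀ 2 y0 k6
          have kx := low_near ht0 (by linarith)
          rw [← hx] at kx
          have m1 := pow_le_pow_left₀ (by linarith : 0 ≤ 1 + 13 / 10 * t) kx 2
          have m2 : 1 * c1 (t + t') ≤ x * c1 (t + t') :=
            mul_le_mul_of_nonneg_right (by linarith) y0
          have m3 := mul_nonneg ht0 (by linarith : 0 ≤ 13 / 10 - (t + t'))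
          have k7 : (x + c1 (t + t')) ^ 2 + t' ^ 2 = x ^ 2 + t ^ 2 + 2 * (x * c1 (t + t')) -
              2 * (t * (t + t')) + 1 := by
            linear_combination ey
          rw [k7] at k3
          have := sq_nonneg t
          linarith
      · right
        apply thr_of_cross
        refine (thr_lin hs hs1).trans ?_
        rw [ecr]
        have m1 : 1 * (t + t') ≤ x * (t + t') := mul_le_mul_of_nonneg_right (by linarith) hT0
        have m2 := mul_nonneg y0 ht0
        linarith
    · have kx : 145 / 100 ≤ x := by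
        have := pow_le_pow_left₀ (by linarith : 0 ≤ h0 - t) (by linarith : h0 - t ≤ 22 / 100) 2
        linarith
      rcases le_or_gt (t + t') (8 / 10) with hT8 | hT8
      · -- the side `23` is too long
        exfalso
        have yh : 6 / 10 ≤ c1 (t + t') := by
          refine le_of_sq2 y0 ?_
          have := pow_le_pow_left₀ hT0 hT8 2
          linarith
        have m1 := pow_le_pow_left₀ (by norm_num : (0 : ℝ) ≤ 2)
          (by linarith : 2 ≤ x + c1 (t + t')) 2
        have := sq_nonneg t'
        linarith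
      · right
        apply thr_of_cross
        refine (thr_le hs hs1).trans ?_
        rw [ecr]
        have m1 := mul_le_mul kx hT8.le (by norm_num) (by linarith)
        have m2 := mul_nonneg y0 ht0
        linarith
  · -- negative area
    exfalso
    have k1 : 0 ≤ x * (t + t') := mul_nonneg (by linarith) hT0
    have k2 : 0 ≤ c1 (t + t') * t := mul_nonneg y0 ht0
    linarith
  · -- negative area
    exfalso
    have k1 : 1 * (t + t') ≤ x * (t + t') := mul_le_mul_of_nonneg_right (by linarith) hT0
    have k2 : c1 (t + t') * t ≤ 1 * t := mul_le_mul_of_nonneg_right y1 ht0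
    linarith

/-- All triangles outside the window `H1` are impossible. -/
theorem rowB_upp_cir : RowB NUpp NCir := by
  intro s x y t t' σ σ' hs hs1 hP hQ hσ hσ' h hc
  obtain ⟨hx, ht0, ht1⟩ := hP
  obtain ⟨rfl, hT0, hT1⟩ := hQ
  have hh := h0_pos
  have hq := h0_sq'
  obtain ⟨b1, b2⟩ := h0_bd
  have htT : t ≤ t + t' := by linarith [h.t1]
  have y0 := c1_nonneg (t + t')
  have yh := (c1_half hT0 hT1.le).2 (by linarith)
  have ht3 : t ^ 2 ≤ 3 := by
    have := pow_le_pow_left₀ (by linarith : 0 ≤ t) (by linarith : t ≤ 17 / 10) 2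
    linarith
  obtain ⟨x0, x2, -⟩ := upp_bd ht0 ht3
  rw [← hx] at x0 x2
  have hg := cross_ge h hc
  obtain ⟨C, C0, eC, eW, -, -⟩ := upp_sq ht0 ht3
  have m1 : 0 ≤ x * (t + t') := mul_nonneg x0 hT0
  have m2 : 0 ≤ c1 (t + t') * t := mul_nonneg y0 (by linarith)
  have m3 : x * (t + t') ≤ 1 / 2 * 1 := mul_le_mul x2 hT1.le hT0 (by norm_num)
  have m4 : c1 (t + t') * t ≤ 1 / 2 * 1 :=
    mul_le_mul yh (by linarith) (by linarith) (by norm_num)
  rcases hσ with rfl | rfl <;> rcases hσ' with rfl | rfl
  · exfalso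
    linarith
  · rcases le_or_gt (t + t') h0 with hTh | hTh
    · left
      right
      left
      refine ⟨?_, by linarith, ?_⟩ <;> rw [abs_le] <;> constructor <;> linarith
    · -- the side `23` is too short
      exfalso
      obtain ⟨δ, hδ⟩ : ∃ δ, δ = t - h0 := ⟨_, rfl⟩
      obtain ⟨e, he⟩ : ∃ e, e = t + t' - h0 := ⟨_, rfl⟩
      have hT' : t + t' = h0 + e := by linarith
      have d0 : 0 ≤ δ := by linarith
      have de : δ ≤ e := by linarith
      have e0 : 0 < e := by linarith
      rw [← hδ] at eC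
      have ky := o2_b2_tan e0.le (by linarith)
      rw [← hT'] at ky
      have kC : 97 / 100 ≤ C := by
        refine le_of_sq2 C0 ?_
        have := pow_le_pow_left₀ d0 (by linarith : δ ≤ 22 / 100) 2
        linarith
      have k1 := h.b1
      rw [hx, eW] at k1
      obtain ⟨D, hD⟩ : ∃ D, c1 (t + t') = 1 / 2 - D := ⟨1 / 2 - c1 (t + t'), by ring⟩
      rw [hD] at k1 ky y0
      have k2 : t' = e - δ := by linarith
      rw [k2] at k1
      have k3 : (-1 * (1 / 2 - D) - 1 * (C - 1 / 2)) ^ 2 + (e - δ) ^ 2 =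
          1 - D * (2 * C - D) + e ^ 2 - 2 * (e * δ) := by
        linear_combination eC
      rw [k3] at k1
      have n1 := mul_nonneg e0.le d0
      have n2 : 17 / 10 * e * 1 ≤ D * (2 * C - D) :=
        mul_le_mul (by linarith) (by linarith) (by norm_num) (by linarith)
      have n3 : e ^ 2 < 17 / 10 * e := by nlinarith
      linarith
  · exfalso
    linarith
  · exfalso
    linarith

end Pool.Agent.Strip051.LC.E0
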