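import Pool.Agent.Strip051.LC.E0.OutH

/-! # Small rests: the rows `A` with `W` and the circle of radius `√3` -/

namespace Pool.Agent.Strip051.LC.E0

open Pool.Agent.StripNear Pool.Agent.StripSquare Pool.Agent.Strip051 Pool.Agent.Strip051.Sweep

/-- Above `h0`. -/
private theorem o2_c1_upp {s x y t t' : ℝ} (hs : 0 < s) (hs1 : s ≤ 11 / 400) (hx : 0 ≤ x)
    (h1 : h0 ≤ t) (hy : y = c3 t') (k0 : 0 ≤ t') (k3 : t' ^ 2 ≤ 3)
    (hS : Sides x (x - y) t t') : h0 * (1 + 2 * thr s) ≤ x * (t + t') - (x - y) * t := by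
  have hh := h0_pos
  have hq := h0_sq'
  obtain ⟨b1, b2⟩ := h0_bd
  have e1 : t + t' ≤ 2 * h0 := by
    refine le_of_sq2 (by linarith) ?_
    have := hS.c3
    have := sq_nonneg (x - y)
    rw [show (2 * h0) ^ 2 = 4 * h0 ^ 2 by ring, hq]
    linarith
  have e2 : 3 / 2 ≤ y := by
    rw [hy]
    exact (c3_half k0 k3).1 (by linarith)
  refine (thr_le hs hs1).trans ?_
  have e3 := mul_le_mul e2 h1 hh.le (by linarith)
  have e4 := mul_nonneg hx k0
  linarith

/-- Below `h0`, away from the horizontal direction. -/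
private theorem o2_c1_far {s x y t t' : ℝ} (hs : 0 < s) (hs1 : s ≤ 11 / 400)
    (hx : 1 + t / 2 ≤ x) (hp : x ^ 2 + t ^ 2 = x + 2 * h0 * t) (ht : 9 / 5 * s ≤ t)
    (hy : y ^ 2 + t' ^ 2 = 3) (hS : Sides x (x - y) t t')
    (hc : 0 ≤ x * (t + t') - (x - y) * t) :
    h0 * (1 + 2 * thr s) ≤ x * (t + t') - (x - y) * t := by
  have hh := h0_pos
  have hq := h0_sq'
  obtain ⟨b1, b2⟩ := h0_bd
  have hr := hS.c1
  have hr3 := hS.c3
  have hp3 := hS.a3
  have e := heron x (x - y) t t'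
  rw [show x - y - x = -y by ring, neg_sq, hy] at e
  have e' := with_three hr hr3 (p := x ^ 2 + t ^ 2) (by rw [e]; ring)
  obtain ⟨p, hp'⟩ : ∃ p, x ^ 2 + t ^ 2 = p := ⟨_, rfl⟩
  rw [hp'] at e' hp3 hp
  have p1 : 1 + 4 * s ≤ p := by
    have := mul_le_mul_of_nonneg_right b1.le (by linarith : 0 ≤ t)
    linarith
  have k1 := mul_nonneg (sub_nonneg.2 hr) (by linarith : 0 ≤ 2 * p + 1)
  have k2 := mul_nonneg (by linarith : 0 ≤ p - (1 + 4 * s)) (by linarith : 0 ≤ 3 - p)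
  have k3 := mul_nonneg (by linarith : 0 ≤ p - (1 + 4 * s)) (by linarith : 0 ≤ 4 - 4 * s)
  have k4 := mul_nonneg hs.le (by linarith : 0 ≤ 11 / 400 - s)
  refine (thr_lin hs hs1).trans (le_of_sq2 hc ?_)
  have k5 := mul_le_mul_of_nonneg_left b2.le hs.le
  have k6 : (h0 + 32 / 10 * s) ^ 2 = 3 / 4 + 64 / 10 * (s * h0) + 1024 / 100 * s ^ 2 := by
    linear_combination hq
  rw [k6]
  nlinarith

/-- Below `h0`, next to the horizontal direction. -/
private theorem o2_c1_near {s x y t t' : ℝ} (hs : 0 < s) (hs1 : s ≤ 11 / 400)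
    (hx : 1 + t / 2 ≤ x) (hp : x ^ 2 + t ^ 2 = x + 2 * h0 * t) (t0 : 0 ≤ t)
    (ht : t < 9 / 5 * s) (y0 : 0 ≤ y) (hy : y ^ 2 + t' ^ 2 = 3) (k0 : 0 ≤ t')
    (hS : Sides x (x - y) t t') :
    Win8 s t t' ∨ h0 * (1 + 2 * thr s) ≤ x * (t + t') - (x - y) * t := by
  have hh := h0_pos
  have hq := h0_sq'
  obtain ⟨b1, b2⟩ := h0_bd
  rcases lt_or_ge (h0 + 8 * s) (t + t') with h1 | h1
  · right
    refine (thr_lin hs hs1).trans ?_
    have e1 := mul_le_mul_of_nonneg_right (by linarith : 1 ≤ x) k0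
    have e2 := mul_nonneg y0 t0
    linarith
  rcases lt_or_ge t' (h0 - 8 * s) with h2 | h2
  · exfalso
    have e1 : 3 / 2 + 3 * s ≤ y := by
      refine le_of_sq2 y0 ?_
      have e2 := pow_le_pow_left₀ k0 h2.le 2
      have e3 := mul_le_mul_of_nonneg_left b1.le hs.le
      have e4 := mul_nonneg hs.le (by linarith : 0 ≤ 11 / 400 - s)
      nlinarith
    have e2 := mul_le_mul hx (by linarith : 2 + 6 * s ≤ 2 * y - 1) (by linarith)
      (by linarith : 0 ≤ x)
    have e3 := mul_le_mul_of_nonneg_left h2.le t0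
    have e4 := mul_nonneg t0 hs.le
    have e5 := mul_le_mul_of_nonneg_left b2.le t0
    have hr := hS.c1
    nlinarith
  · left
    left
    refine ⟨by linarith, ?_, ?_⟩
    · rw [abs_le]
      constructor <;> linarith
    · rw [abs_le]
      constructor <;> linarith

/-- `x` on `W` at `t`, `y = c3 t'`. Equal signs: the squared length of 13 is `p + 3 + 2 (x y + t t')
> 3`, contradiction. (-1,1): cross product negative (or 0). (1,-1): `c = x t' + y t`.
`t >= h0` (above): `t + t' <= 2 h0` gives `t' <= h0`, `y >= 3/2`, `c >= 3/2 * h0 > .9534` (`thr_le`).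
`t < h0` (below): `p = x^2 + t^2 = x + 2 h0 t`. For `t >= 9/5 s`: `p >= 1 + 4 s`, and `with_three`.
For `t < 9/5 s`, outside `H0`: `t + t' > h0 + 8 s`: `c >= x t' >= t'`. `t' < h0 - 8 s`: the squared
length of 13 is `p + 3 - 2 (x y - t t') < 1`. -/
theorem rowA_W_c3 : RowA NW NC3 := by
  intro s x y t t' σ σ' hs hs1 hP hQ hσ hσ' hS hc
  obtain ⟨hy, k0, k3⟩ := hQ
  have e3 := c3_sq k3
  have y0 := c3_nonneg t'
  rw [← hy] at e3 y0
  have t0 := hS.t0
  have hh := h0_pos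
  have hx : 0 ≤ x := by
    rcases hP with ⟨rfl, h1, h2⟩ | ⟨rfl, h1, h2⟩
    · have := (low_bd h1 h2).1
      linarith
    · obtain ⟨b1, b2⟩ := h0_bd
      refine (upp_bd h1 ?_).1
      have := pow_le_pow_left₀ (by linarith : 0 ≤ t) (by linarith : t ≤ 17 / 10) 2
      linarith
  have m1 := mul_nonneg hx y0
  have m2 := mul_nonneg t0 k0
  have m3 := mul_nonneg hx k0
  have m4 := mul_nonneg y0 t0
  rcases hσ with rfl | rfl <;> rcases hσ' with rfl | rfl
  · exfalso
    have h1 := hS.c3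
    have h2 := hS.a1
    nlinarith
  · have e : (1 : ℝ) * x + -1 * y = x - y := by ring
    rw [e, one_mul] at hS ⊢
    have hc' : 0 ≤ x * (t + t') - (x - y) * t := by linarith
    suffices key : Win8 s t t' ∨ h0 * (1 + 2 * thr s) ≤ x * (t + t') - (x - y) * t from
      key.imp_right thr_of_cross
    rcases hP with ⟨hw, h1, h2⟩ | ⟨hw, h1, h2⟩
    · have l1 := (low_bd h1 h2).1
      have l2 := (W_dn h1 h2).1
      rw [← hw] at l1 l2
      have hp : x ^ 2 + t ^ 2 = x + 2 * h0 * t := by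
        linear_combination l2 - h0_sq'
      rcases le_or_gt (9 / 5 * s) t with h3 | h3
      · exact Or.inr (o2_c1_far hs hs1 l1 hp h3 e3 hS hc')
      · exact o2_c1_near hs hs1 l1 hp t0 h3 y0 e3 k0 hS
    · exact Or.inr (o2_c1_upp hs hs1 hx h1 hy k0 k3 hS)
  · exfalso
    have h1 := cross_ge hS (by linarith)
    linarith
  · exfalso
    have h1 := hS.c3
    have h2 := hS.a1
    nlinarith

end Pool.Agent.Strip051.LC.E0
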