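import Pool.Agent.Strip051.LC.E0.OutH

/-! # Small rests: the rows `B` with `W` at `12` and the circle of radius `√3` at `13` -/

namespace Pool.Agent.Strip051.LC.E0

open Pool.Agent.StripNear Pool.Agent.StripSquare Pool.Agent.Strip051 Pool.Agent.Strip051.Sweep

/-- The excess with a side of squared length `3` and a side of squared length at least `1 + 4 s`. -/
theorem o2_c2_enough {s p r c : ℝ} (hs : 0 < s) (hs1 : s ≤ 11 / 400) (hc : 0 ≤ c)
    (hp : 1 + 4 * s ≤ p) (hp3 : p ≤ 3) (hr : 1 ≤ r) (hr3 : r ≤ 3)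
    (h : 4 * c ^ 2 = 4 * 3 * p - (3 + p - r) ^ 2) : h0 * (1 + 2 * thr s) ≤ c := by
  obtain ⟨b1, b2⟩ := h0_bd
  have hq := h0_sq'
  have h1 := with_three hr hr3 h
  refine (thr_lin hs hs1).trans (le_of_sq2 hc ?_)
  have k1 : 0 ≤ (r - 1) * (2 * p + 1) := mul_nonneg (by linarith) (by linarith)
  have k2 : 0 ≤ (p - 1 - 4 * s) * (3 - p) := mul_nonneg (by linarith) (by linarith)
  have k3 : 0 ≤ (4 - 4 * s) * (p - 1 - 4 * s) := mul_nonneg (by linarith) (by linarith)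
  have k4 : 0 ≤ s * (86603 / 100000 - h0) := mul_nonneg hs.le (by linarith)
  have k5 : 0 ≤ s * (11 / 400 - s) := mul_nonneg hs.le (by linarith)
  have e : (h0 + 32 / 10 * s) ^ 2 = 3 / 4 + 64 / 10 * (s * h0) + 1024 / 100 * s ^ 2 := by
    linear_combination hq
  rw [e]
  nlinarith

/-- The curve `W` below `h0`. -/
theorem o2_c2_low_p {s T : ℝ} (hs : 0 < s) (hs1 : s ≤ 11 / 400) (h1 : 14 / 10 * s ≤ T)
    (h2 : T < h0) : 1 + 4 * s ≤ Wc T ^ 2 + T ^ 2 := by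
  obtain ⟨b1, b2⟩ := h0_bd
  have hq := h0_sq'
  have T0 : 0 ≤ T := by linarith
  obtain ⟨C, C0, eC, eW, eP, -⟩ := low_sq T0 h2
  rw [eP]
  have e : 2 + C - 2 * h0 * (h0 - T) = 1 / 2 + C + 2 * (h0 * T) := by
    linear_combination (-2) * hq
  have k := mul_nonneg T0 (by linarith : 0 ≤ h0 - 86602 / 100000)
  rw [e]
  rcases le_or_gt T (7 / 50) with h3 | h3
  · have := low_near T0 h3
    rw [eW] at this
    linarith
  · have := (low_bd T0 h2).1
    rw [eW] at this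
    linarith

/-- The curve `W` above `h0`. -/
theorem o2_c2_upp_p {s T : ℝ} (hs : 0 < s) (h1 : h0 + 5 / 2 * s ≤ T)
    (h3 : T ^ 2 ≤ 3) : 1 + 4 * s ≤ Wc T ^ 2 + T ^ 2 := by
  obtain ⟨b1, b2⟩ := h0_bd
  obtain ⟨C, C0, eC, eW, eP, -⟩ := upp_sq (by linarith : h0 ≤ T) h3
  rw [eP]
  have k : C ≤ 1 := by
    refine le_of_sq2 zero_le_one ?_
    have := sq_nonneg (T - h0)
    linarith
  have k2 : 0 ≤ (h0 - 86602 / 100000) * (T - h0) := mul_nonneg (by linarith) (by linarith)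
  linarith

/-- The circle of radius `√3` above `h0`. -/
theorem o2_c2_c3_le {y T : ℝ} (e : y ^ 2 + T ^ 2 = 3) (h1 : h0 ≤ T)
    (h2 : T ≤ 2 * h0) : y ≤ 3 / 2 - (T - h0) / 2 := by
  obtain ⟨b1, b2⟩ := h0_bd
  have hq := h0_sq'
  refine le_of_sq2 (by linarith) ?_
  have k := mul_nonneg (by linarith : 0 ≤ T - h0) (by linarith : 0 ≤ h0 - 86602 / 100000)
  have k2 := sq_nonneg (T - h0)
  have k3 : 0 ≤ T - h0 := by linarith
  have e1 : y ^ 2 = 9 / 4 - 2 * (h0 * (T - h0)) - (T - h0) ^ 2 := by linear_combination e - hq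
  rw [e1]
  linarith

/-- The circle of radius `√3` next to the vertical direction. -/
theorem o2_c2_c3_ge {y T : ℝ} (y0 : 0 ≤ y) (e : y ^ 2 + T ^ 2 = 3) (h1 : h0 ≤ T)
    (h2 : T ≤ 2 * h0) : 2 * h0 * (2 * h0 - T) ≤ y := by
  obtain ⟨b1, b2⟩ := h0_bd
  have hq := h0_sq'
  refine le_of_sq2 y0 ?_
  have k := mul_nonneg (by linarith : 0 ≤ 2 * h0 - T) (by linarith : 0 ≤ T - h0)
  have e1 : y ^ 2 - (2 * h0 * (2 * h0 - T)) ^ 2 = 4 * ((2 * h0 - T) * (T - h0)) := by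
    linear_combination e - (4 * h0 * (4 * h0 - 4 * T) + 4 * T ^ 2 + 4) * hq
  linarith

/-- `x` on `W` at `t < 14 / 10 s`, both edges to the right. -/
theorem o2_c2_low11 {s x y t t' : ℝ} (hs : 0 < s) (hs1 : s ≤ 11 / 400) (ht0 : 0 ≤ t)
    (ht1 : t < 14 / 10 * s) (t1 : 0 ≤ t') (x1 : 1 ≤ x) (x2 : x ≤ 3 / 2) (y0 : 0 ≤ y)
    (ey : y ^ 2 + (t + t') ^ 2 = 3) (hy : h0 ≤ t + t' → y ≤ 3 / 2)
    (hb : 1 ≤ (y - x) ^ 2 + t' ^ 2) :
    Win8 s t t' ∨ h0 * (1 + 2 * thr s) ≤ x * (t + t') - y * t := by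
  obtain ⟨b1, b2⟩ := h0_bd
  have hq := h0_sq'
  rcases le_or_gt (t + t') (h0 + 8 * s) with h1 | h1
  · rcases le_or_gt (h0 - 8 * s) t' with h2 | h2
    · left
      left
      refine ⟨by linarith, abs_le.2 ⟨by linarith, by linarith⟩, abs_le.2 ⟨by linarith, by linarith⟩⟩
    · exfalso
      have k1 : (t + t') ^ 2 < h0 ^ 2 := pow_lt_pow_left₀ (by linarith) (by linarith) two_ne_zero
      have k2 : 3 / 2 < y := by
        by_contra hcon
        push Not at hcon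
        have := pow_le_pow_left₀ y0 hcon 2
        linarith
      have k3 : (y - x) ^ 2 ≤ (y - 1) ^ 2 := pow_le_pow_left₀ (by linarith) (by linarith) 2
      have k4 : t' ^ 2 ≤ (t + t') ^ 2 := pow_le_pow_left₀ t1 (by linarith) 2
      linarith
  · right
    refine (thr_lin hs hs1).trans ?_
    have k1 := hy (by linarith)
    have k2 : y * t ≤ 3 / 2 * t := mul_le_mul_of_nonneg_right k1 ht0
    have k3 : 1 * (t + t') ≤ x * (t + t') := mul_le_mul_of_nonneg_right x1 (by linarith)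
    linarith

/-- `x` on `W` at `h0 <= t < h0 + 5 / 2 s`, edges in different directions. -/
theorem o2_c2_upp1 {s x y t T : ℝ} (hs : 0 < s) (hs1 : s ≤ 11 / 400) (ht0 : h0 ≤ t)
    (ht1 : t < h0 + 5 / 2 * s) (x2 : 1 / 2 - (t - h0) ^ 2 ≤ x) (y0 : 0 ≤ y)
    (ey : y ^ 2 + T ^ 2 = 3) (hT : h0 ≤ T) (hT2 : T ≤ 2 * h0 - 11 / 2 * s) :
    h0 * (1 + 2 * thr s) ≤ x * T + y * t := by
  obtain ⟨b1, b2⟩ := h0_bd
  have hh := h0_pos
  have hq := h0_sq'
  refine (thr_lin hs hs1).trans ?_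
  have k1 := o2_c2_c3_ge y0 ey hT (by linarith)
  have k2 : y * h0 ≤ y * t := mul_le_mul_of_nonneg_left ht0 y0
  have k3 : 2 * h0 * (2 * h0 - T) * h0 ≤ y * h0 := mul_le_mul_of_nonneg_right k1 hh.le
  have k4 : (1 / 2 - (t - h0) ^ 2) * T ≤ x * T := mul_le_mul_of_nonneg_right x2 (by linarith)
  have k5 : 2 * h0 * (2 * h0 - T) * h0 = 3 / 2 * (2 * h0 - T) := by
    linear_combination 2 * (2 * h0 - T) * hq
  have k6 : (t - h0) ^ 2 ≤ (5 / 2 * s) ^ 2 := pow_le_pow_left₀ (by linarith) (by linarith) 2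
  have k7 : (t - h0) ^ 2 * T ≤ (5 / 2 * s) ^ 2 * T := mul_le_mul_of_nonneg_right k6 (by linarith)
  have k8 : (5 / 2 * s) ^ 2 * T ≤ (5 / 2 * s) ^ 2 * 2 :=
    mul_le_mul_of_nonneg_left (by linarith) (sq_nonneg _)
  have k9 : 0 ≤ s * (11 / 400 - s) := mul_nonneg hs.le (by linarith)
  linarith

/-- `x` on `W` at `h0 <= t < h0 + 5 / 2 s`, both edges to the left. -/
theorem o2_c2_upp2 {s x y t T : ℝ} (hs : 0 < s) (hs1 : s ≤ 11 / 400) (ht0 : h0 ≤ t)
    (ht1 : t < h0 + 5 / 2 * s) (x2 : 1 / 2 - (t - h0) ^ 2 ≤ x)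
    (ey : y ^ 2 + T ^ 2 = 3) (hT : h0 + 8 * s ≤ T) (hT2 : T ≤ 2 * h0) :
    y * t - x * T < h0 := by
  obtain ⟨b1, b2⟩ := h0_bd
  have hh := h0_pos
  have k1 := o2_c2_c3_le ey (by linarith) hT2
  have k2 : y * t ≤ (3 / 2 - (T - h0) / 2) * t := mul_le_mul_of_nonneg_right k1 (by linarith)
  have k4 : (1 / 2 - (t - h0) ^ 2) * T ≤ x * T := mul_le_mul_of_nonneg_right x2 (by linarith)
  obtain ⟨δ, rfl⟩ : ∃ δ, t = h0 + δ := ⟨t - h0, by ring⟩
  obtain ⟨τ, rfl⟩ : ∃ τ, T = h0 + τ := ⟨T - h0, by ring⟩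
  rw [add_sub_cancel_left] at *
  have d0 : 0 ≤ δ := by linarith
  have k5 : 0 ≤ δ * (7 / 100 - δ) := mul_nonneg d0 (by linarith)
  have k6 : δ ^ 2 * (h0 + τ) ≤ δ ^ 2 * 2 := mul_le_mul_of_nonneg_left (by linarith) (sq_nonneg _)
  have k7 : 0 ≤ τ * δ := mul_nonneg (by linarith) d0
  have k8 : 0 ≤ (τ - 8 * s) * h0 := mul_nonneg (by linarith) hh.le
  have k9 : 0 ≤ s * (h0 - 86602 / 100000) := mul_nonneg hs.le (by linarith)
  linarith

/-- `x` on `W` at `t`, `T = t + t'`, `y = c3 T`, `p = x^2 + t^2`; with the sides 12 and 13 and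
`with_three`: enough as soon as `p - 1 >= 4 s`; so below `h0`: `t < 14/10 s`, above:
`δ = t - h0 < 5/2 s`. Case `t < h0`:
(1,1): `c = x T - y t`; `T > h0 + 8 s`: `c >= T - 3/2 t`; `t' < h0 - 8 s`: the squared length of 23 is
at most `(y - 1)^2 + T^2 = 4 - 2 y < 1`. (1,-1): `(x + y)^2 <= 3` gives `y <= 3/4`, `T >= 3/2`,
`c >= T`. (-1,1): negative. (-1,-1): `c = y t - x T <= 2 t < h0`. Case `h0 <= t` (`x <= 1/2`):
(1,1): `c = x T - y t >= h0` forces `T = 2 h0`: window `V`. (-1,1): negative. (-1,-1):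
`c = y t - x T`: outside `H1` `T > h0 + 8 s`, `y <= 3/2 - 1/2 (T - h0)`, `x >= 1/2 - δ^2`, `c < h0`.
(1,-1): `c = x T + y t`; outside `V`: `t' < h0 - 8 s`, so `ζ = 2 h0 - T > 11/2 s`, `y >= 2 h0 ζ`,
`c >= (1/2 - δ^2) T + 3/2 ζ = h0 + ζ - δ^2 T`. -/
theorem rowB_W_c3 : RowB NW NC3 := by
  intro s x y t t' σ σ' hs hs1 hP hQ hσ hσ' h hc
  obtain ⟨hy, hT0, hT3⟩ := hQ
  obtain ⟨b1, b2⟩ := h0_bd
  have hh := h0_pos
  have hq := h0_sq'
  have t0 := h.t0
  have t1 := h.t1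
  have s1 : σ ^ 2 = 1 := by rcases hσ with rfl | rfl <;> norm_num
  have s2 : σ' ^ 2 = 1 := by rcases hσ' with rfl | rfl <;> norm_num
  have y0 : 0 ≤ y := by rw [hy]; exact c3_nonneg _
  have ey : y ^ 2 + (t + t') ^ 2 = 3 := by rw [hy]; exact c3_sq hT3
  have e13 : (σ' * y) ^ 2 + (t + t') ^ 2 = 3 := by rw [mul_pow, s2, one_mul]; exact ey
  have e12 : (σ * x) ^ 2 + t ^ 2 = x ^ 2 + t ^ 2 := by rw [mul_pow, s1, one_mul]
  have hp3 : x ^ 2 + t ^ 2 ≤ 3 := by rw [← e12]; exact h.a3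
  -- a side of squared length at least `1 + 4 s`
  have key : 1 + 4 * s ≤ x ^ 2 + t ^ 2 → thr s ≤ exn (σ * x) (σ' * y) t t' := by
    intro hp
    refine thr_of_cross (o2_c2_enough hs hs1 hc hp hp3 h.b1 h.b3 ?_)
    rw [← e12]
    linear_combination (4 * ((σ * x) ^ 2 + t ^ 2) - ((σ' * y) ^ 2 + (t + t') ^ 2) - 3 -
      2 * ((σ * x) ^ 2 + t ^ 2) + 2 * ((σ' * y - σ * x) ^ 2 + t' ^ 2)) * e13
  have hge := cross_ge h hc
  have hb1 := h.b1
  have hb3 := h.b3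
  have y2 : y ≤ 2 := le_of_sq2 (by norm_num) (by linarith [sq_nonneg (t + t')])
  have yt : 0 ≤ y * t := mul_nonneg y0 t0
  rcases hP with ⟨hx, -, ht1⟩ | ⟨hx, ht1, ht2⟩
  · -- below `h0`
    rcases le_or_gt (14 / 10 * s) t with h1 | h1
    · right
      apply key
      rw [hx]
      exact o2_c2_low_p hs hs1 h1 ht1
    obtain ⟨x1, x2, -, -⟩ := low_bd t0 ht1
    rw [← hx] at x1 x2
    have xT : 0 ≤ x * (t + t') := mul_nonneg (by linarith) hT0
    rcases hσ with rfl | rfl <;> rcases hσ' with rfl | rfl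
    · have hb : 1 ≤ (y - x) ^ 2 + t' ^ 2 := by
        have e : (1 * y - 1 * x) ^ 2 = (y - x) ^ 2 := by ring
        rw [← e]
        exact hb1
      have hy32 : h0 ≤ t + t' → y ≤ 3 / 2 := by
        intro hc
        rw [hy]
        exact (c3_half hT0 hT3).2 hc
      rcases o2_c2_low11 hs hs1 t0 h1 t1 (by linarith) x2 y0 ey hy32 hb with hw | hw
      · exact Or.inl hw
      · right
        apply thr_of_cross
        linarith
    · right
      apply thr_of_cross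
      refine (thr_le hs hs1).trans ?_
      have e : (-1 * y - 1 * x) ^ 2 = (x + y) ^ 2 := by ring
      rw [e] at hb3
      have k1 : y ≤ 3 / 4 := by
        by_contra hcon
        push Not at hcon
        have := pow_le_pow_left₀ (by norm_num : (0 : ℝ) ≤ 7 / 4) (by linarith : 7 / 4 ≤ x + y) 2
        linarith [sq_nonneg t']
      have k2 : y ^ 2 ≤ (3 / 4) ^ 2 := pow_le_pow_left₀ y0 k1 2
      have k3 : 3 / 2 ≤ t + t' := le_of_sq2 hT0 (by linarith)
      have k4 : 1 * (t + t') ≤ x * (t + t') := mul_le_mul_of_nonneg_right (by linarith) hT0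
      linarith
    · exfalso
      linarith
    · exfalso
      have k1 : y * t ≤ 2 * t := mul_le_mul_of_nonneg_right y2 t0
      linarith
  · -- above `h0`
    have ht3 : t ^ 2 ≤ 3 := by linarith [sq_nonneg x]
    rcases le_or_gt (h0 + 5 / 2 * s) t with h1 | h1
    · right
      apply key
      rw [hx]
      exact o2_c2_upp_p hs h1 ht3
    obtain ⟨x0, x1, x2⟩ := upp_bd ht1 ht3
    rw [← hx] at x0 x1 x2
    have hT2 : t + t' ≤ 2 * h0 := by
      refine le_of_sq2 (by linarith) ?_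
      have e : (2 * h0) ^ 2 = 3 := by linear_combination 4 * hq
      rw [e]
      exact hT3
    have xT0 : 0 ≤ x * (t + t') := mul_nonneg x0 hT0
    have xT : x * (t + t') ≤ 1 / 2 * (t + t') := mul_le_mul_of_nonneg_right x1 hT0
    rcases hσ with rfl | rfl <;> rcases hσ' with rfl | rfl
    · left
      right
      right
      have k1 : 2 * h0 ≤ t + t' := by linarith
      exact ⟨abs_le.2 ⟨by linarith, by linarith⟩, abs_le.2 ⟨by linarith, by linarith⟩,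
        abs_le.2 ⟨by linarith, by linarith⟩⟩
    · rcases le_or_gt (h0 - 8 * s) t' with h2 | h2
      · left
        right
        right
        exact ⟨abs_le.2 ⟨by linarith, by linarith⟩, abs_le.2 ⟨by linarith, by linarith⟩,
          abs_le.2 ⟨by linarith, by linarith⟩⟩
      · right
        apply thr_of_cross
        have := o2_c2_upp1 hs hs1 ht1 h1 x2 y0 ey (by linarith) (by linarith)
        linarith
    · exfalso
      linarith
    · rcases le_or_gt (t + t') (h0 + 8 * s) with h2 | h2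
      · left
        right
        left
        exact ⟨abs_le.2 ⟨by linarith, by linarith⟩, by linarith,
          abs_le.2 ⟨by linarith, by linarith⟩⟩
      · exfalso
        have := o2_c2_upp2 hs hs1 ht1 h1 x2 ey h2.le hT2
        linarith

end Pool.Agent.Strip051.LC.E0
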