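import Pool.Agent.Strip051.LC.E0.OutH

/-! # Small rests: the rows `B` with the circle of radius `√3` at `12` and `W` at `13` -/

namespace Pool.Agent.Strip051.LC.E0

open Pool.Agent.StripNear Pool.Agent.StripSquare Pool.Agent.Strip051 Pool.Agent.Strip051.Sweep

/-- A side of length `√3` and a side which is not next to a unit side. -/
private theorem o2_c3_three {s p c : ℝ} (hs : 0 < s) (hs1 : s ≤ 11 / 400) (hc : 0 ≤ c)
    (h : 8 * p - p ^ 2 - 4 ≤ 4 * c ^ 2) (p1 : 1 + 4 * s ≤ p) (p3 : p ≤ 3) :
    h0 * (1 + 2 * thr s) ≤ c := by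
  have hh := h0_pos
  have hq := h0_sq'
  obtain ⟨b1, b2⟩ := h0_bd
  have k2 := mul_nonneg (by linarith : 0 ≤ p - (1 + 4 * s)) (by linarith : 0 ≤ 3 - p)
  have k3 := mul_nonneg (by linarith : 0 ≤ p - (1 + 4 * s)) (by linarith : 0 ≤ 4 - 4 * s)
  have k4 := mul_nonneg hs.le (by linarith : 0 ≤ 11 / 400 - s)
  refine (thr_lin hs hs1).trans (le_of_sq2 hc ?_)
  have k5 := mul_le_mul_of_nonneg_left b2.le hs.le
  have k6 : (h0 + 32 / 10 * s) ^ 2 = 3 / 4 + 64 / 10 * (s * h0) + 1024 / 100 * s ^ 2 := by
    linear_combination hq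
  rw [k6]
  nlinarith

/-- The same for a triangle with the side 12 of length `√3`. -/
private theorem o2_c3_side {s X Y t t' : ℝ} (hs : 0 < s) (hs1 : s ≤ 11 / 400)
    (hS : Sides X Y t t') (hc : 0 ≤ X * (t + t') - Y * t) (hx : X ^ 2 + t ^ 2 = 3)
    (hp : 1 + 4 * s ≤ Y ^ 2 + (t + t') ^ 2) :
    h0 * (1 + 2 * thr s) ≤ X * (t + t') - Y * t := by
  have hr := hS.b1
  have hr3 := hS.b3
  have hp3 := hS.c3
  have e := heron X Y t t'
  rw [hx] at e
  have e' := with_three hr hr3 (p := Y ^ 2 + (t + t') ^ 2) (by rw [e]; ring)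
  have k1 := mul_nonneg (sub_nonneg.2 hr)
    (by positivity : 0 ≤ 2 * (Y ^ 2 + (t + t') ^ 2) + 1)
  exact o2_c3_three hs hs1 hc (by linarith) hp hp3

/-- `x = c3 t`, `T = t + t'`, `y` on `W` at `T`, `p = y^2 + T^2`: enough as soon as `p - 1 >= 4 s`; so
`T < 9/5 s` (below) or `δ = T - h0 < 5/2 s` (above). `T < 9/5 s`: `|X23| = x - y <= 3/4` or `>= 2`:
contradiction to the lengths. `h0 <= T`: (1,1): `c = x T - y t >= t + 3/2 t' >= h0 + t' / 2`.
(1,-1): `c >= x T`. (-1,1), (-1,-1): negative. -/
theorem rowB_c3_W : RowB NC3 NW := by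
  intro s x y t t' σ σ' hs hs1 hP hQ hσ hσ' hS hc
  obtain ⟨hx, t0, t3⟩ := hP
  have hh := h0_pos
  have hq := h0_sq'
  obtain ⟨b1, b2⟩ := h0_bd
  have k0 := hS.t1
  have e3 := c3_sq t3
  have x0 := c3_nonneg t
  rw [← hx] at e3 x0
  suffices key : Win8 s t t' ∨ h0 * (1 + 2 * thr s) ≤ σ * x * (t + t') - σ' * y * t from
    key.imp_right thr_of_cross
  have eX : (σ * x) ^ 2 + t ^ 2 = 3 := by
    rcases hσ with rfl | rfl <;> linarith
  have eY : (σ' * y) ^ 2 = y ^ 2 := by
    rcases hσ' with rfl | rfl <;> ring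
  rcases hQ with ⟨hw, h1, h2⟩ | ⟨hw, h1, h2⟩
  · -- below
    obtain ⟨l1, l2, l3, -⟩ := low_bd h1 h2
    have l4 := (W_dn h1 h2).1
    rw [← hw] at l1 l2 l3 l4
    have hp : y ^ 2 + (t + t') ^ 2 = y + 2 * h0 * (t + t') := by
      linear_combination l4 - h0_sq'
    have m1 := mul_le_mul_of_nonneg_right b1.le h1
    have m2 := mul_le_mul_of_nonneg_right b2.le h1
    rcases le_or_gt (9 / 5 * s) (t + t') with h3 | h3
    · refine Or.inr (o2_c3_side hs hs1 hS hc eX ?_)
      rw [eY, hp]
      linarith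
    · exfalso
      have u1 : x ≤ 17321 / 10000 := by
        refine le_of_sq2 (by norm_num) ?_
        have := sq_nonneg t
        linarith
      have u2 : 17 / 10 ≤ x := by
        refine le_of_sq2 x0 ?_
        have := pow_le_pow_left₀ t0 (by linarith : t ≤ 1 / 20) 2
        linarith
      have u3 := pow_le_pow_left₀ k0 (by linarith : t' ≤ 1 / 20) 2
      have u4 := pow_le_pow_left₀ (by linarith : 0 ≤ x - y) (by linarith : x - y ≤ 3 / 4) 2
      have u5 := pow_le_pow_left₀ (by norm_num : (0 : ℝ) ≤ 2) (by linarith : 2 ≤ x + y) 2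
      have v1 := hS.b1
      have v3 := hS.b3
      have v4 := sq_nonneg t'
      rcases hσ with rfl | rfl <;> rcases hσ' with rfl | rfl
      · rw [show 1 * y - 1 * x = -(x - y) by ring, neg_sq] at v1
        linarith
      · rw [show -1 * y - 1 * x = -(x + y) by ring, neg_sq] at v3
        linarith
      · rw [show 1 * y - -1 * x = x + y by ring] at v3
        linarith
      · rw [show -1 * y - -1 * x = x - y by ring] at v1
        linarith
  · -- above
    have T3 : (t + t') ^ 2 ≤ 3 := by
      have := pow_le_pow_left₀ (by linarith : 0 ≤ t + t') (by linarith : t + t' ≤ 17 / 10) 2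
      linarith
    obtain ⟨l1, l2, -⟩ := upp_bd h1 T3
    obtain ⟨C, C0, eC, -, eW, -⟩ := upp_sq h1 T3
    rw [← hw] at l1 l2 eW
    have C1 : C ≤ 1 := by
      refine le_of_sq2 zero_le_one ?_
      have := sq_nonneg (t + t' - h0)
      linarith
    rcases le_or_gt (5 / 2 * s) (t + t' - h0) with h3 | h3
    · refine Or.inr (o2_c3_side hs hs1 hS hc eX ?_)
      rw [eY, eW]
      have := mul_le_mul_of_nonneg_right b1.le (by linarith : 0 ≤ t + t' - h0)
      linarith
    · have u2 : 14 / 10 ≤ x := by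
        refine le_of_sq2 x0 ?_
        have := pow_le_pow_left₀ t0 (by linarith : t ≤ 19 / 20) 2
        linarith
      have w1 := mul_le_mul_of_nonneg_right u2 (by linarith : 0 ≤ t + t')
      have w2 := mul_le_mul_of_nonneg_right l2 t0
      have w3 := mul_nonneg l1 t0
      rcases hσ with rfl | rfl <;> rcases hσ' with rfl | rfl
      · rcases le_or_gt t' (8 * s) with h4 | h4
        · rcases lt_or_ge t (h0 - 8 * s) with h5 | h5
          · linarith
          · left; right; left
            refine ⟨?_, h4, ?_⟩ <;>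
            · rw [abs_le]
              constructor <;> linarith
        · right
          have u3 : 3 / 2 ≤ x := by
            rw [hx]
            exact (c3_half t0 t3).1 (by linarith)
          have w4 := mul_le_mul_of_nonneg_right u3 (by linarith : 0 ≤ t + t')
          refine (thr_lin hs hs1).trans ?_
          linarith
      · right
        refine (thr_le hs hs1).trans ?_
        linarith
      · exfalso
        have := cross_ge hS hc
        linarith
      · exfalso
        have := cross_ge hS hc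
        linarith

end Pool.Agent.Strip051.LC.E0
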