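import Pool.Agent.Strip051.LC.E0.OutH

/-! # Small rests: the rows with two nodes which are not short -/

namespace Pool.Agent.Strip051.LC.E0

open Pool.Agent.StripNear Pool.Agent.StripSquare Pool.Agent.Strip051 Pool.Agent.Strip051.Sweep

/-- The inner node at one third. -/
theorem o2_d1_nf {x T : ℝ} (h : NF x T) :
    117 / 100 ≤ x ^ 2 + T ^ 2 ∧ x ^ 2 + T ^ 2 ≤ 3 := by
  obtain ⟨rfl, h1, h3⟩ := h
  have hh := h0_pos
  have hq := h0_sq'
  obtain ⟨b1, b2⟩ := h0_bd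
  have hT : 0 ≤ T := by linarith
  have hT1 : T ≤ 86603 / 100000 := by linarith
  have hT2 : 43301 / 100000 ≤ T := by linarith
  have hT3 : T ^ 2 ≤ 3 := by nlinarith
  obtain ⟨C, C0, eC, eW, -, -⟩ := low_sq hT h3
  have e1 := c1_sq hT (by linarith : T ≤ 1)
  have e3 := c3_sq hT3
  have c0 := c1_nonneg T
  have c30 := c3_nonneg T
  obtain ⟨o1, o2, o3, o4, o5⟩ := order5 hT hT3
  have oc : c1 T ≤ Wc T := by linarith
  have oW3 : Wc T ≤ c3 T := by linarith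
  have k0 := mul_nonneg (by linarith : 0 ≤ T - 43301 / 100000)
    (by linarith : 0 ≤ 86603 / 100000 - T)
  have k1 : 12 / 10 - 81 / 100 * T ≤ c1 T := by
    refine le_of_sq2 c0 ?_
    linarith
  have k2 : 7 / 10 + 3 / 10 * T ≤ C := by
    refine le_of_sq2 C0 ?_
    have e : C ^ 2 = 1 / 4 + 2 * h0 * T - T ^ 2 := by linear_combination eC - hq
    have e2 := mul_nonneg hT (by linarith : 0 ≤ h0 - 86602 / 100000)
    rw [e]
    linarith
  have k3 : 12 / 10 - 44 / 100 * T ≤ c1 T + 1 / 3 * (Wc T - c1 T) := by linarith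
  have k4 := pow_le_pow_left₀ (by linarith : 0 ≤ 12 / 10 - 44 / 100 * T) k3 2
  have x3 : c1 T + 1 / 3 * (Wc T - c1 T) ≤ c3 T := by linarith
  have k5 := pow_le_pow_left₀ (by linarith : 0 ≤ c1 T + 1 / 3 * (Wc T - c1 T)) x3 2
  refine ⟨?_, by linarith⟩
  have k6 := sq_nonneg (T - 4424 / 10000)
  linarith

/-- The nodes which are not short. -/
theorem o2_d1_nlong {x T : ℝ} (h : NLong x T) :
    117 / 100 ≤ x ^ 2 + T ^ 2 ∧ x ^ 2 + T ^ 2 ≤ 3 := by
  rcases h with h | h | h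
  · exact o2_d1_nf h
  · obtain ⟨-, -, -, -, h1, h2⟩ := nb_bd h
    exact ⟨h1, h2⟩
  · obtain ⟨rfl, -, h3⟩ := h
    rw [c3_sq h3]
    norm_num

/-- The square does not see the sign. -/
theorem o2_d1_sg {σ x : ℝ} (h : σ = 1 ∨ σ = -1) : (σ * x) ^ 2 = x ^ 2 := by
  rcases h with rfl | rfl <;> ring

/-- `117/100 <= x^2 + T^2 <= 3` for each node, then `two_sides` with `heron`, sides 12 and 23. -/
theorem rowA_long : RowA NLong NLong := by
  intro s x y t t' σ σ' hs hs1 hx hy hσ hσ' h hc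
  right
  apply thr_of_cross
  obtain ⟨p1, p3⟩ := o2_d1_nlong hx
  obtain ⟨q1, q3⟩ := o2_d1_nlong hy
  have e1 : (σ * x) ^ 2 + t ^ 2 = x ^ 2 + t ^ 2 := by rw [o2_d1_sg hσ]
  have e2 : (σ * x + σ' * y - σ * x) ^ 2 + t' ^ 2 = y ^ 2 + t' ^ 2 := by
    rw [add_sub_cancel_left, o2_d1_sg hσ']
  refine two_sides hs hs1 (by linarith) (by rw [e1]; exact p1) (by rw [e1]; exact p3)
    (by rw [e2]; exact q1) (by rw [e2]; exact q3) h.c1 h.c3 (heron _ _ _ _)

/-- The same with the sides 12 and 13. -/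
theorem rowB_long : RowB NLong NLong := by
  intro s x y t t' σ σ' hs hs1 hx hy hσ hσ' h hc
  right
  apply thr_of_cross
  obtain ⟨p1, p3⟩ := o2_d1_nlong hx
  obtain ⟨q1, q3⟩ := o2_d1_nlong hy
  have e1 : (σ * x) ^ 2 + t ^ 2 = x ^ 2 + t ^ 2 := by rw [o2_d1_sg hσ]
  have e2 : (σ' * y) ^ 2 + (t + t') ^ 2 = y ^ 2 + (t + t') ^ 2 := by rw [o2_d1_sg hσ']
  refine two_sides hs hs1 (by linarith) p1 p3 q1 q3 h.b1 h.b3 ?_
  rw [← e1, ← e2]
  ring

end Pool.Agent.Strip051.LC.E0
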