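import Pool.Agent.Strip051.LC.E0.OutH

/-! # Small rests: the rows `A` with the outer inner node -/

namespace Pool.Agent.Strip051.LC.E0

open Pool.Agent.StripNear Pool.Agent.StripSquare Pool.Agent.Strip051 Pool.Agent.Strip051.Sweep

/-- `1 + y` is too long for the third side. -/
theorem o2_e1_long {y u : ℝ} (h : NB y u) : 3 < (1 + y) ^ 2 + u ^ 2 := by
  obtain ⟨y0, yW, -, -, -, -⟩ := nb_bd h
  have hn := h
  obtain ⟨-, h1, h3⟩ := h
  obtain ⟨b1, b2⟩ := h0_bd
  have hq := h0_sq'
  rcases le_or_gt u (11 / 10) with h4 | h4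
  · have k := nb_near hn h4
    have d0 : 0 ≤ u - h0 := by linarith
    have d1 : u - h0 ≤ 234 / 1000 := by linarith
    have d2 := mul_nonneg d0 (by linarith : 0 ≤ 234 / 1000 - (u - h0))
    have k1 : 6 / 10 ≤ y := by nlinarith
    have k2 : h0 ^ 2 ≤ u ^ 2 := pow_le_pow_left₀ (by linarith) h1 2
    nlinarith
  · obtain ⟨u1, u2, u3⟩ := upp_bd h1 h3
    have u2h : u ≤ 2 * h0 := by
      refine le_of_sq2 (by linarith) ?_
      have : (2 * h0) ^ 2 = 3 := by rw [mul_pow, hq]; norm_num
      rw [this]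
      exact h3
    obtain ⟨C, C0, eC, eW, -, -⟩ := upp_sq h1 h3
    have k1 : (1 + Wc u) ^ 2 ≤ (1 + y) ^ 2 := pow_le_pow_left₀ (by linarith) (by linarith) 2
    have k2 : C ^ 2 ≤ C := by
      have : C ≤ 1 := by
        refine le_of_sq2 zero_le_one ?_
        nlinarith [sq_nonneg (u - h0)]
      nlinarith
    have k3 : (1 + Wc u) ^ 2 + u ^ 2 = 2 + C + 2 * h0 * (u - h0) := by
      rw [eW]
      linear_combination eC + hq
    have k4 : 0 < (u - h0) * (2 * h0 - (u - h0)) := mul_pos (by linarith) (by linarith)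
    nlinarith

/-- A node on `W` below `h0` and an outer inner node: the bound of the cross product. -/
theorem o2_e1_cross {s x y t u : ℝ} (hs : 0 < s) (hs1 : s ≤ 11 / 400) (hx : NLow x t)
    (hy : NB y u) : (t ≤ 8 * s ∧ u - h0 ≤ 8 * s ∧ t + u - h0 ≤ 8 * s) ∨
      h0 * (1 + 2 * thr s) ≤ x * u + y * t := by
  obtain ⟨y0, yW, -, -, -, -⟩ := nb_bd hy
  have hn := hy
  obtain ⟨-, h1, h3⟩ := hy
  obtain ⟨rfl, t0, th⟩ := hx
  obtain ⟨b1, b2⟩ := h0_bd
  obtain ⟨l1, -, -, -⟩ := low_bd t0 th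
  have hH := thr_lin hs hs1
  have hH2 := thr_le hs hs1
  have yt := mul_nonneg y0 t0
  have a1 : (1 + t / 2) * u ≤ Wc t * u := mul_le_mul_of_nonneg_right l1 (by linarith)
  have a2 := mul_nonneg t0 (by linarith : 0 ≤ u)
  rcases le_or_gt u (11 / 10) with h4 | h4
  · have k := nb_near hn h4
    have d0 : 0 ≤ u - h0 := by linarith
    have d1 : u - h0 ≤ 234 / 1000 := by linarith
    have d2 := mul_nonneg d0 (by linarith : 0 ≤ 234 / 1000 - (u - h0))
    have k1 : 6 / 10 ≤ y := by nlinarith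
    have k2 := mul_le_mul_of_nonneg_right k1 t0
    have k3 := mul_le_mul_of_nonneg_left (by linarith : 866 / 1000 ≤ u) t0
    have key : t + u ≤ Wc t * u + y * t := by linarith
    by_cases c : t + u - h0 ≤ 8 * s
    · exact Or.inl ⟨by linarith, by linarith, c⟩
    · exact Or.inr (by linarith [not_le.1 c])
  · exact Or.inr (by linarith)

/-- `x = Wc t`, `t < h0`, `y` the node at `t'`; `W`: `1 + t / 2 <= x` (`low_bd`). -/
theorem rowA_low_nb : RowA NLow NB := by
  intro s x y t t' σ σ' hs hs1 hx hy h1 h2 S hc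
  have hh := h0_pos
  obtain ⟨y0, -, -, -, -, -⟩ := nb_bd hy
  have hu : 0 ≤ t' := hh.le.trans hy.2.1
  have x1 : 1 ≤ x := by
    obtain ⟨rfl, t0, th⟩ := hx
    linarith [(low_bd t0 th).1]
  have hL := o2_e1_long hy
  have t0 := S.t0
  have tt := mul_nonneg t0 hu
  have ec : σ * x * (t + t') - (σ * x + σ' * y) * t = σ * x * t' - σ' * y * t := by ring
  have hg := cross_ge S (by rw [ec]; exact hc)
  rw [ec] at hg
  have long : ¬ (x + y) ^ 2 + (t + t') ^ 2 ≤ 3 := by
    have : (1 + y) ^ 2 ≤ (x + y) ^ 2 := pow_le_pow_left₀ (by linarith) (by linarith) 2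
    nlinarith
  have yt := mul_nonneg y0 t0
  have xt := mul_nonneg (by linarith : 0 ≤ x) hu
  rcases h1 with rfl | rfl <;> rcases h2 with rfl | rfl
  · exact absurd (by have := S.c3; ring_nf at this ⊢; exact this) long
  · rcases o2_e1_cross hs hs1 hx hy with ⟨w1, w2, w3⟩ | w
    · refine Or.inl (Or.inl ⟨w1, ?_, ?_⟩)
      · rw [abs_of_nonneg (by linarith [hy.2.1])]
        exact w2
      · rw [abs_of_nonneg (by linarith [hy.2.1])]
        exact w3
    · exact Or.inr (thr_of_cross (by rw [ec]; linarith))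
  · exfalso
    linarith
  · exact absurd (by have := S.c3; ring_nf at this ⊢; exact this) long

/-- The mirror image of the last row (same computation with `t`, `t'` exchanged, window `H1`). -/
theorem rowA_nb_low : RowA NB NLow := by
  intro s y x u t σ σ' hs hs1 hy hx h1 h2 S hc
  have hh := h0_pos
  obtain ⟨y0, -, -, -, -, -⟩ := nb_bd hy
  have hu : 0 ≤ u := hh.le.trans hy.2.1
  have x1 : 1 ≤ x := by
    obtain ⟨rfl, t0, th⟩ := hx
    linarith [(low_bd t0 th).1]
  have hL := o2_e1_long hy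
  have t0 := S.t1
  have tt := mul_nonneg t0 hu
  have ec : σ * y * (u + t) - (σ * y + σ' * x) * u = σ * y * t - σ' * x * u := by ring
  have hg := cross_ge S (by rw [ec]; exact hc)
  rw [ec] at hg
  have long : ¬ (x + y) ^ 2 + (t + u) ^ 2 ≤ 3 := by
    have : (1 + y) ^ 2 ≤ (x + y) ^ 2 := pow_le_pow_left₀ (by linarith) (by linarith) 2
    nlinarith
  have yt := mul_nonneg y0 t0
  have xt := mul_nonneg (by linarith : 0 ≤ x) hu
  rcases h1 with rfl | rfl <;> rcases h2 with rfl | rfl
  · exact absurd (by have := S.c3; ring_nf at this ⊢; linarith) long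
  · rcases o2_e1_cross hs hs1 hx hy with ⟨w1, w2, w3⟩ | w
    · refine Or.inl (Or.inr (Or.inl ⟨?_, w1, ?_⟩))
      · rw [abs_of_nonneg (by linarith [hy.2.1])]
        exact w2
      · rw [abs_of_nonneg (by linarith [hy.2.1])]
        linarith
    · exact Or.inr (thr_of_cross (by rw [ec]; linarith))
  · exfalso
    linarith
  · exact absurd (by have := S.c3; ring_nf at this ⊢; linarith) long

/-- `t >= h0`, `t' >= h0` and `t + t' <= 2 h0`: `t = t' = h0`, window `V`. -/
theorem rowA_upp_nb : RowA NUpp NB := by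
  intro s x y t t' σ σ' hs hs1 hx hy h1 h2 S hc
  have hh := h0_pos
  have hq := h0_sq'
  have a := hx.2.1
  have b := hy.2.1
  have hT : t + t' ≤ 2 * h0 := by
    refine le_of_sq2 (by linarith) ?_
    have : (2 * h0) ^ 2 = 3 := by rw [mul_pow, hq]; norm_num
    rw [this]
    nlinarith [S.c3, sq_nonneg (σ * x + σ' * y)]
  have e1 : t = h0 := by linarith
  have e2 : t' = h0 := by linarith
  subst e1
  refine Or.inl (Or.inr (Or.inr ⟨?_, ?_, ?_⟩))
  · rw [sub_self, abs_zero]
    linarith
  · rw [e2, sub_self, abs_zero]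
    linarith
  · rw [e2, show h0 + h0 - 2 * h0 = 0 by ring, abs_zero]
    linarith

/-- The unit circle next to the horizontal direction. -/
theorem o2_e1_c1 {t : ℝ} (h : 0 ≤ t) (h1 : t ≤ 11 / 50) : 1 - 508 / 1000 * t ^ 2 ≤ c1 t := by
  refine le_of_sq2 (c1_nonneg t) ?_
  have e := c1_sq h (by linarith)
  have u1 : t ^ 2 ≤ 484 / 10000 := by nlinarith
  have u2 := mul_nonneg (sq_nonneg t) (by linarith : 0 ≤ 484 / 10000 - t ^ 2)
  nlinarith

/-- The unit circle above its chord between the horizontal direction and `h0`. -/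
theorem o2_e1_chord {t : ℝ} (h : 0 ≤ t) (h1 : t ≤ h0) : 1 - 57736 / 100000 * t ≤ c1 t := by
  obtain ⟨b1, b2⟩ := h0_bd
  have hq := h0_sq'
  have e := c1_sq h (by linarith)
  refine le_of_sq2 (c1_nonneg t) ?_
  have k := mul_nonneg h (by linarith : 0 ≤ 86603 / 100000 - t)
  nlinarith

/-- The cross product of the row `cir_nb`. -/
theorem o2_e1_cn {s y t u : ℝ} (hs : 0 < s) (hs1 : s ≤ 11 / 400) (hy : NB y u) (t0 : 0 ≤ t)
    (hT : t + u ≤ 2 * h0) : t + u - h0 ≤ 8 * s ∨ h0 * (1 + 2 * thr s) ≤ c1 t * u + y * t := by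
  obtain ⟨y0, yW, -, -, -, -⟩ := nb_bd hy
  have hn := hy
  obtain ⟨-, h1, h3⟩ := hy
  obtain ⟨b1, b2⟩ := h0_bd
  have hq := h0_sq'
  have hH := thr_lin hs hs1
  have hH2 := thr_le hs hs1
  have th : t ≤ h0 := by linarith
  have u0 : 0 ≤ u := by linarith
  have yt := mul_nonneg y0 t0
  have d0 : 0 ≤ u - h0 := by linarith
  rcases le_or_gt (9534 / 10000) u with h5 | h5
  · -- far from `h0`
    refine Or.inr (hH2.trans ?_)
    have g1 := mul_le_mul_of_nonneg_right (o2_e1_chord t0 th) u0
    rcases le_or_gt u (11 / 10) with h4 | h4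
    · have k := nb_near hn h4
      have d1 : u - h0 ≤ 234 / 1000 := by linarith
      have d2 := mul_nonneg d0 (by linarith : 0 ≤ 234 / 1000 - (u - h0))
      have k1 : 6 / 10 ≤ y := by nlinarith
      have k2 := mul_le_mul_of_nonneg_right k1 t0
      have k3 := mul_le_mul_of_nonneg_left h4 t0
      rcases le_or_gt u (1038 / 1000) with h6 | h6
      · have k4 := mul_le_mul_of_nonneg_left h6 t0
        linarith
      · linarith
    · obtain ⟨-, -, u3⟩ := upp_bd h1 h3
      have k1 : 1 / 2 - (u - h0) ^ 2 ≤ y := by linarith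
      have u2 : u ≤ 2 * h0 := by linarith
      rcases le_or_gt u (13 / 10) with h6 | h6
      · have k2 := mul_le_mul_of_nonneg_right k1 t0
        have k3 : (u - h0) ^ 2 ≤ 1884 / 10000 + (u - 13 / 10) * (668 / 1000) := by
          nlinarith [mul_nonneg (by linarith : 0 ≤ u - 11 / 10) (by linarith : 0 ≤ 13 / 10 - u)]
        have k4 := mul_le_mul_of_nonneg_right k3 t0
        have k5 : t * (u - 11 / 10) ≤ (6321 / 10000 - (u - 11 / 10)) * (u - 11 / 10) :=
          mul_le_mul_of_nonneg_right (by linarith) (by linarith)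
        nlinarith
      · have k2 : t * u ≤ (17321 / 10000 - u) * u := mul_le_mul_of_nonneg_right (by linarith) u0
        nlinarith
  · -- next to `h0`
    have k := nb_near hn (by linarith)
    have d1 : u - h0 ≤ 88 / 1000 := by linarith
    have d2 := mul_nonneg d0 (by linarith : 0 ≤ 88 / 1000 - (u - h0))
    have k1 : 637 / 1000 ≤ y := by nlinarith
    have k2 := mul_le_mul_of_nonneg_right k1 t0
    rcases le_or_gt t (11 / 50) with h6 | h6
    · by_cases c : t + u - h0 ≤ 8 * s
      · exact Or.inl c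
      · refine Or.inr ?_
        have c' := not_le.1 c
        have g1 := mul_le_mul_of_nonneg_right (o2_e1_c1 t0 h6) u0
        have g2 := mul_le_mul_of_nonneg_left h5.le (sq_nonneg t)
        have g3 := mul_nonneg t0 (by linarith : 0 ≤ 11 / 50 - t)
        linarith
    · refine Or.inr (hH2.trans ?_)
      have g1 : h0 * c1 t ≤ c1 t * u := by
        rw [mul_comm]
        exact mul_le_mul_of_nonneg_left h1 (c1_nonneg t)
      have g2 : 9534 / 10000 - 637 / 1000 * t ≤ h0 * c1 t := by
        refine le_of_sq2 (mul_nonneg (by linarith) (c1_nonneg t)) ?_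
        have e := c1_sq t0 (by linarith)
        have e2 : (h0 * c1 t) ^ 2 = 3 / 4 * (1 - t ^ 2) := by
          rw [mul_pow, hq]
          linear_combination (3 / 4) * e
        rw [e2]
        have := mul_nonneg (by linarith : 0 ≤ t - 11 / 50) (by linarith : 0 ≤ 86603 / 100000 - t)
        nlinarith
      linarith

/-- `x = c1 t`, `y` the node at `t' >= h0`, `t + t' <= 2 h0`. -/
theorem rowA_cir_nb : RowA NCir NB := by
  intro s x y t t' σ σ' hs hs1 hx hy h1 h2 S hc
  have hh := h0_pos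
  have hq := h0_sq'
  obtain ⟨y0, -, -, y13, -, -⟩ := nb_bd hy
  obtain ⟨b1, b2⟩ := h0_bd
  have hu : 0 ≤ t' := hh.le.trans hy.2.1
  have hL := o2_e1_long hy
  have hT : t + t' ≤ 2 * h0 := by
    refine le_of_sq2 (by linarith) ?_
    have : (2 * h0) ^ 2 = 3 := by rw [mul_pow, hq]; norm_num
    rw [this]
    nlinarith [S.c3, sq_nonneg (σ * x + σ' * y)]
  obtain ⟨rfl, t0, th⟩ := hx
  have e1 := c1_sq t0 th.le
  have x0 := c1_nonneg t
  have tt := mul_nonneg t0 hu
  have ec : σ * c1 t * (t + t') - (σ * c1 t + σ' * y) * t = σ * c1 t * t' - σ' * y * t := by ring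
  have hg := cross_ge S (by rw [ec]; exact hc)
  rw [ec] at hg
  have x1 : 1 ≤ c1 t + t := by
    refine le_of_sq2 (by linarith) ?_
    nlinarith [mul_nonneg x0 t0]
  have long : ¬ (c1 t + y) ^ 2 + (t + t') ^ 2 ≤ 3 := by
    have k1 := mul_le_mul_of_nonneg_left x1 y0
    have k2 := mul_le_mul_of_nonneg_left (by linarith [hy.2.1] : y ≤ t') t0
    nlinarith
  have yt := mul_nonneg y0 t0
  have xt := mul_nonneg x0 hu
  rcases h1 with rfl | rfl <;> rcases h2 with rfl | rfl
  · exact absurd (by have := S.c3; ring_nf at this ⊢; linarith) long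
  · rcases o2_e1_cn hs hs1 hy t0 hT with w | w
    · refine Or.inl (Or.inl ⟨by linarith [hy.2.1], ?_, ?_⟩)
      · rw [abs_of_nonneg (by linarith [hy.2.1])]
        linarith
      · rw [abs_of_nonneg (by linarith [hy.2.1])]
        exact w
    · exact Or.inr (thr_of_cross (by rw [ec]; linarith))
  · exfalso
    linarith
  · exact absurd (by have := S.c3; ring_nf at this ⊢; linarith) long

end Pool.Agent.Strip051.LC.E0
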