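import Pool.Agent.Strip051.LC.E0.OutH

/-! # Small rests: the rows `B` with `W` and the outer inner node -/

namespace Pool.Agent.Strip051.LC.E0

open Pool.Agent.StripNear Pool.Agent.StripSquare Pool.Agent.Strip051 Pool.Agent.Strip051.Sweep

/-- A lower bound at the outer inner node. -/
theorem o2_e2_near {x T a m : ℝ} (h : NB x T) (h4 : T ≤ 11 / 10) (ha : T - h0 ≤ a)
    (hm : m ≤ 13 / 20 - 21 / 200 * a - 9 / 20 * a ^ 2) : m ≤ x := by
  have h1 := nb_near h h4
  have h2 : 0 ≤ T - h0 := by linarith [h.2.1]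
  have h3 : (T - h0) ^ 2 ≤ a ^ 2 := by gcongr
  linarith

/-- The outer inner node between `11 / 10` and `1182 / 1000`. -/
theorem o2_e2_mid {x T : ℝ} (h : NB x T) (h1 : 11 / 10 ≤ T) (h2 : T ≤ 1182 / 1000) :
    1 / 2 ≤ x := by
  obtain ⟨hh1, hh2⟩ := h0_bd
  obtain ⟨hx, hT, hT3⟩ := h
  have h3 := (upp_bd hT hT3).2.2
  have h4 : (T - h0) ^ 2 ≤ (1 / 3) ^ 2 := by
    have : 0 ≤ T - h0 := by linarith
    have : T - h0 ≤ 1 / 3 := by linarith
    gcongr
  have h5 : 5 / 4 ≤ c3 T := by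
    apply le_of_sq2 (c3_nonneg T)
    have h6 := c3_sq hT3
    have h7 : T ^ 2 ≤ (1182 / 1000) ^ 2 := by
      have : 0 ≤ T := by linarith
      gcongr
    linarith
  rw [hx]
  linarith

/-- The squared length at the outer inner node. -/
theorem o2_e2_len {x T : ℝ} (h : NB x T) (h1 : 1002 / 1000 ≤ T) :
    13966 / 10000 ≤ x ^ 2 + T ^ 2 := by
  obtain ⟨hh1, hh2⟩ := h0_bd
  have key : ∀ m b : ℝ, 0 ≤ m → 0 ≤ b → m ≤ x → b ≤ T → 13966 / 10000 ≤ m ^ 2 + b ^ 2 →
      13966 / 10000 ≤ x ^ 2 + T ^ 2 := by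
    intro m b hm hb h2 h3 h4
    have h5 : m ^ 2 ≤ x ^ 2 := by gcongr
    have h6 : b ^ 2 ≤ T ^ 2 := by gcongr
    linarith
  rcases le_total T (1005 / 1000) with h2 | h2
  · exact key (6267 / 10000) (1002 / 1000) (by norm_num) (by norm_num)
      (o2_e2_near h (by linarith) (a := 1005 / 1000 - 86602 / 100000) (by linarith)
        (by norm_num)) h1 (by norm_num)
  rcases le_total T (101 / 100) with h3 | h3
  · exact key (625 / 1000) (1005 / 1000) (by norm_num) (by norm_num)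
      (o2_e2_near h (by linarith) (a := 101 / 100 - 86602 / 100000) (by linarith)
        (by norm_num)) h2 (by norm_num)
  rcases le_total T (103 / 100) with h4 | h4
  · exact key (62 / 100) (101 / 100) (by norm_num) (by norm_num)
      (o2_e2_near h (by linarith) (a := 103 / 100 - 86602 / 100000) (by linarith)
        (by norm_num)) h3 (by norm_num)
  rcases le_total T (11 / 10) with h5 | h5
  · exact key (60 / 100) (103 / 100) (by norm_num) (by norm_num)
      (o2_e2_near h (by linarith) (a := 110 / 100 - 86602 / 100000) (by linarith)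
        (by norm_num)) h4 (by norm_num)
  rcases le_total T (1182 / 1000) with h6 | h6
  · exact key (1 / 2) (11 / 10) (by norm_num) (by norm_num) (o2_e2_mid h h5 h6) h5 (by norm_num)
  · exact key 0 (1182 / 1000) (by norm_num) (by norm_num) (nb_bd h).1 h6 (by norm_num)

/-- The signs `(1,1)`. -/
theorem o2_e2_lown_pp {s x y t t' : ℝ} (hs : 0 < s) (hs1 : s ≤ 11 / 400) (hP : NLow x t)
    (hQ : NB y (t + t')) (hS : Sides x y t t') (hc : 0 ≤ x * (t + t') - y * t) :
    Win8 s t t' ∨ h0 * (1 + 2 * thr s) ≤ x * (t + t') - y * t := by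
  obtain ⟨hh1, hh2⟩ := h0_bd
  obtain ⟨hx, ht0, hth⟩ := hP
  obtain ⟨hx1, hx3, -, -⟩ := low_bd ht0 hth
  rw [← hx] at hx1 hx3
  obtain ⟨hy0, -, -, hy1, -, hl3⟩ := nb_bd hQ
  have hT := hQ.2.1
  set T := t + t' with hTdef
  have htT : t ≤ T := by linarith [hS.t1]
  -- a lower bound of the area
  have hlow : T + t * (T / 2 - 13 / 20) ≤ x * T - y * t := by
    have e1 : 0 ≤ (x - (1 + t / 2)) * T := mul_nonneg (by linarith) (by linarith)
    have e2 : 0 ≤ (13 / 20 - y) * t := mul_nonneg (by linarith) ht0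
    linarith
  have hthr := thr_le hs hs1
  rcases le_total (106 / 100) T with h1 | h1
  · right
    have e1 : 0 ≤ t * (T / 2 - 13 / 20 + 12 / 100) := mul_nonneg ht0 (by linarith)
    linarith
  rcases le_total (1002 / 1000) T with h2 | h2
  · right
    refine of_side hs hs1 hc (side13 hS hc) (o2_e2_len hQ h2) ?_
    have e1 : T ^ 2 ≤ (106 / 100) ^ 2 := by
      have : 0 ≤ T := by linarith
      gcongr
    have e2 : y ^ 2 ≤ (13 / 20) ^ 2 := by gcongr
    linarith
  rcases lt_or_ge t (5 * s) with h3 | h3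
  · rcases le_or_gt T (h0 + 8 * s) with h4 | h4
    · left; left
      have ht' : t' = T - t := by rw [hTdef]; ring
      refine ⟨by linarith, abs_le.2 ⟨by linarith, by linarith⟩,
        abs_le.2 ⟨by linarith, by linarith⟩⟩
    · right
      have e1 : 0 ≤ t * (T / 2 - 13 / 20 + 1 / 4) := mul_nonneg ht0 (by linarith)
      have e2 := thr_lin hs hs1
      linarith
  rcases le_or_gt t (h0 - 8 * s) with h4 | h4
  · right
    have e1 := side12 hS hc
    rw [hx] at e1 ⊢
    rw [hx] at hc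
    exact low_side hs hs1 h3 h4 hc e1
  · exfalso
    have e1 : 6 / 10 ≤ y := o2_e2_near hQ (by linarith) (a := 1002 / 1000 - 86602 / 100000)
      (by linarith) (by norm_num)
    have e2 : (x - y) ^ 2 ≤ (9 / 10) ^ 2 := by
      have : 0 ≤ x - y := by linarith
      have : x - y ≤ 9 / 10 := by linarith
      gcongr
    have ht' : t' ≤ 4 / 10 := by linarith
    have e3 : t' ^ 2 ≤ (4 / 10) ^ 2 := by
      have := hS.t1
      gcongr
    have e4 := hS.b1
    have e5 : (y - x) ^ 2 = (x - y) ^ 2 := by ring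
    linarith

/-- The signs `(1,-1)`. -/
theorem o2_e2_lown_pm {s x y t t' : ℝ} (hs : 0 < s) (hs1 : s ≤ 11 / 400) (hP : NLow x t)
    (hQ : NB y (t + t')) (hS : Sides x (-y) t t') :
    h0 * (1 + 2 * thr s) ≤ x * (t + t') - -y * t := by
  obtain ⟨hh1, hh2⟩ := h0_bd
  obtain ⟨hx, ht0, hth⟩ := hP
  obtain ⟨hx1, hx3, -, -⟩ := low_bd ht0 hth
  rw [← hx] at hx1 hx3
  obtain ⟨hy0, -, -, hy1, -, hl3⟩ := nb_bd hQ
  have hT := hQ.2.1
  have ht' := hS.t1
  have hb3 := hS.b3
  have hlow : (t + t') * (1 + t / 2) + y * t ≤ x * (t + t') - -y * t := by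
    have e1 : 0 ≤ (x - (1 + t / 2)) * (t + t') := mul_nonneg (by linarith) (by linarith)
    linarith
  have hthr := thr_le hs hs1
  have hyt : 0 ≤ y * t := mul_nonneg hy0 ht0
  rcases le_total (96 / 100) (t + t') with h1 | h1
  · have e1 : 0 ≤ (t + t') * t := mul_nonneg (by linarith) ht0
    linarith
  · have e1 : 63 / 100 ≤ y := o2_e2_near hQ (by linarith) (a := 96 / 100 - 86602 / 100000)
      (by linarith) (by norm_num)
    have e2 : (163 / 100) ^ 2 ≤ (x + y) ^ 2 := by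
      have : 163 / 100 ≤ x + y := by linarith
      gcongr
    have e3 : (-y - x) ^ 2 = (x + y) ^ 2 := by ring
    have e4 : t' ≤ 6 / 10 := by
      apply le_of_sq2 (by norm_num)
      linarith
    have e5 : 26 / 100 ≤ t := by linarith
    have e6 : 0 ≤ (t + t' - 866 / 1000) * (1 + t / 2) := mul_nonneg (by linarith) (by linarith)
    have e7 : 0 ≤ (y - 63 / 100) * t := mul_nonneg (by linarith) ht0
    linarith

/-- `x = Wc t` (`t < h0`), `T = t + t'`, `y` the node at `T >= h0`. Signs (-1,1): negative, (-1,-1):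
`c = y t - x T <= 0` (`y <= 13/20 <= 1 <= x`). (1,1): `c = x T - y t`. `T >= 106/100`: directly
`c >= T (1 + t/2) - y t`. `1002/1000 <= T <= 106/100`: `of_side` with `side13`.
`T <= 1002/1000`: `5 s <= t <= h0 - 8 s`: `low_side`. `t < 5 s`: outside `H0`
`T > h0 + 8 s` and `c >= T - (y - T/2) t >= T - t/4`.
`t > h0 - 8 s`: `x - y <= 9/10`, `T - t <= 4/10`: `|23|^2 < 1`.
(1,-1): `c = x T + y t >= T (1 + t / 2) + y t`, `(x + y)^2 + (T - t)^2 <= 3`. `T <= 96/100`:
`y >= 63/100`: `T - t <= 6/10`, `t >= 26/100`. `T > 96/100`: `c >= T`. -/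
theorem rowB_low_nb : RowB NLow NB := by
  intro s x y t t' σ σ' hs hs1 hP hQ hσ hσ' hS hc
  obtain ⟨hh1, hh2⟩ := h0_bd
  have hge := cross_ge hS hc
  have ht0 := hP.2.1
  have hx1 : 1 ≤ x := by
    have := (low_bd hP.2.1 hP.2.2).1
    rw [← hP.1] at this
    linarith
  obtain ⟨hy0, -, -, hy1, -, -⟩ := nb_bd hQ
  have ht' := hS.t1
  have e1 : 0 ≤ (x - 1) * (t + t') := mul_nonneg (by linarith) (by linarith)
  have e2 : 0 ≤ (1 - y) * t := mul_nonneg (by linarith) ht0
  have e3 : 0 ≤ y * t := mul_nonneg hy0 ht0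
  rcases hσ with rfl | rfl <;> rcases hσ' with rfl | rfl <;>
    simp only [one_mul, neg_one_mul] at hS hc hge ⊢
  · rcases o2_e2_lown_pp hs hs1 hP hQ hS hc with h | h
    · exact Or.inl h
    · exact Or.inr (thr_of_cross h)
  · refine Or.inr (thr_of_cross ?_)
    exact o2_e2_lown_pm hs hs1 hP hQ hS
  · exfalso; linarith
  · exfalso; linarith

/-- The outer inner node above `147 / 100`. -/
theorem o2_e2_far {x T : ℝ} (h : NB x T) (h1 : 147 / 100 ≤ T) : x ≤ 392 / 1000 := by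
  obtain ⟨hh1, hh2⟩ := h0_bd
  obtain ⟨hx, hT, hT3⟩ := h
  obtain ⟨e1, e2⟩ := W_up hT hT3
  have h2 : (603 / 1000) ^ 2 ≤ (T - h0) ^ 2 := by
    have : 603 / 1000 ≤ T - h0 := by linarith
    gcongr
  have h3 : Wc T + 1 / 2 ≤ 798 / 1000 := by
    apply le_of_sq2 (by norm_num)
    linarith
  have h4 : c3 T ≤ 917 / 1000 := by
    apply le_of_sq2 (by norm_num)
    have h6 := c3_sq hT3
    have h7 : (147 / 100) ^ 2 ≤ T ^ 2 := by gcongr
    linarith
  rw [hx]
  linarith

/-- The corner next to the window `V`: the length of the side `23` bounds `y` from below. -/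
theorem o2_e2_corner {x y u e : ℝ} (hu0 : 0 ≤ u) (he0 : 0 ≤ e) (hu : u ≤ 22 / 100)
    (he : e ≤ 263 / 1000) (hx0 : 0 ≤ x) (hx1 : x ≤ 1 / 2) (hx2 : 1 / 2 - u ^ 2 ≤ x) (hy0 : 0 ≤ y)
    (hy1 : y ≤ 392 / 1000) (hb : 1 ≤ (x + y) ^ 2 + (h0 - (e + u)) ^ 2) :
    h0 + 4 / 10 * (e + u) ≤ x * (2 * h0 - e) + y * (h0 + u) ∨
      9534 / 10000 ≤ x * (2 * h0 - e) + y * (h0 + u) := by
  obtain ⟨hh1, hh2⟩ := h0_bd
  have hsq := h0_sq'
  have e1 : (x + y) ^ 2 ≤ (1 / 2 + y) ^ 2 := by gcongr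
  -- the bound for `y`
  have e2 : 2 * h0 * (e + u) - (e + u) ^ 2 ≤ 1392 / 1000 * y := by
    have e3 : y ^ 2 ≤ 392 / 1000 * y := by
      have := mul_nonneg hy0 (by linarith : (0 : ℝ) ≤ 392 / 1000 - y)
      linarith
    have e4 : (h0 - (e + u)) ^ 2 = 3 / 4 - 2 * h0 * (e + u) + (e + u) ^ 2 := by
      rw [← hsq]; ring
    have e5 : (1 / 2 + y) ^ 2 = 1 / 4 + y + y ^ 2 := by ring
    linarith
  have e6 : 0 ≤ (h0 - 866 / 1000) * (e + u) := mul_nonneg (by linarith) (by linarith)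
  have e7 : 0 ≤ (x - (1 / 2 - u ^ 2)) * (2 * h0 - e) := mul_nonneg (by linarith) (by linarith)
  have e8 : 0 ≤ u ^ 2 * e := mul_nonneg (sq_nonneg u) he0
  have e9 : 0 ≤ u ^ 2 * (86603 / 100000 - h0) := mul_nonneg (sq_nonneg u) (by linarith)
  have e10 : 0 ≤ u * (22 / 100 - u) := mul_nonneg hu0 (by linarith)
  have e11 : 0 ≤ y * u := mul_nonneg hy0 hu0
  have e12 : 0 ≤ y * (h0 - 866 / 1000) := mul_nonneg hy0 (by linarith)
  have hlow : h0 - e / 2 - 382 / 1000 * u + 866 / 1000 * y ≤ x * (2 * h0 - e) + y * (h0 + u) := by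
    linarith
  have hlow2 : h0 - (e + u) / 2 + 866 / 1392 * (1732 / 1000 * (e + u) - (e + u) ^ 2) ≤
      x * (2 * h0 - e) + y * (h0 + u) := by
    linarith
  set w := e + u with hw
  have hw0 : 0 ≤ w := by linarith
  have hw1 : w ≤ 483 / 1000 := by linarith
  rcases le_total w (28 / 100) with h | h
  · left
    have : 0 ≤ w * (28 / 100 - w) := mul_nonneg hw0 (by linarith)
    linarith
  · right
    have : 0 ≤ (w - 28 / 100) * (483 / 1000 - w) := mul_nonneg (by linarith) (by linarith)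
    linarith

/-- The signs `(1,-1)`. -/
theorem o2_e2_uppn_pm {s x y t t' : ℝ} (hs : 0 < s) (hs1 : s ≤ 11 / 400) (hP : NUpp x t)
    (hQ : NB y (t + t')) (hS : Sides x (-y) t t') (hc : 0 ≤ x * (t + t') - -y * t) :
    Win8 s t t' ∨ h0 * (1 + 2 * thr s) ≤ x * (t + t') - -y * t := by
  obtain ⟨hh1, hh2⟩ := h0_bd
  obtain ⟨hx, hth, ht3⟩ := hP
  have ht33 : t ^ 2 ≤ 3 := by
    have e1 : t ^ 2 ≤ (3 * h0 / 2) ^ 2 := by
      have : 0 ≤ t := by linarith
      gcongr
    have e2 := h0_sq'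
    linarith
  obtain ⟨hx0, hx1, hx2⟩ := upp_bd hth ht33
  rw [← hx] at hx0 hx1 hx2
  obtain ⟨hy0, -, -, hy1, -, hl3⟩ := nb_bd hQ
  have hT := hQ.2.1
  have ht' := hS.t1
  have hthr := thr_le hs hs1
  have hyt : 0 ≤ y * (t - h0) := mul_nonneg hy0 (by linarith)
  have hc' : x * (t + t') - -y * t = x * (t + t') + y * t := by ring
  rcases le_or_gt (h0 + 8 * s) t with h1 | h1
  · right
    have e1 := side12 hS hc
    rw [hx] at e1 hc ⊢
    exact upp_side hs hs1 h1 ht3 hc e1
  have hu : (t - h0) ^ 2 ≤ (22 / 100) ^ 2 := by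
    have : 0 ≤ t - h0 := by linarith
    have : t - h0 ≤ 22 / 100 := by linarith
    gcongr
  rcases le_total (t + t') (1002 / 1000) with h2 | h2
  · right
    have e1 : 627 / 1000 ≤ y := o2_e2_near hQ (by linarith)
      (a := 1002 / 1000 - 86602 / 100000) (by linarith) (by norm_num)
    have e2 : (t - h0) ^ 2 ≤ (136 / 1000) ^ 2 := by
      have : 0 ≤ t - h0 := by linarith
      have : t - h0 ≤ 136 / 1000 := by linarith
      gcongr
    have e3 : 0 ≤ (x - 48 / 100) * (t + t') := mul_nonneg (by linarith) (by linarith)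
    have e4 : 0 ≤ (y - 627 / 1000) * t := mul_nonneg (by linarith) (by linarith)
    linarith
  rcases le_total (t + t') (11 / 10) with h3 | h3
  · right
    have e1 : 60 / 100 ≤ y := o2_e2_near hQ h3
      (a := 110 / 100 - 86602 / 100000) (by linarith) (by norm_num)
    have e3 : 0 ≤ (x - 45 / 100) * (t + t') := mul_nonneg (by linarith) (by linarith)
    have e4 : 0 ≤ (y - 60 / 100) * t := mul_nonneg (by linarith) (by linarith)
    linarith
  rcases le_total (t + t') (147 / 100) with h4 | h4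
  · right
    refine of_side hs hs1 hc (side13 hS hc) ?_ ?_
    · have := o2_e2_len hQ (by linarith)
      have e1 : (-y) ^ 2 = y ^ 2 := by ring
      linarith
    · have e1 : (t + t') ^ 2 ≤ (147 / 100) ^ 2 := by
        have : 0 ≤ t + t' := by linarith
        gcongr
      have e2 : y ^ 2 ≤ (13 / 20) ^ 2 := by gcongr
      have e3 : (-y) ^ 2 = y ^ 2 := by ring
      linarith
  · have hy := o2_e2_far hQ h4
    have hT2 : t + t' ≤ 2 * h0 := by
      apply le_of_sq2 (by linarith)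
      have e2 := h0_sq'
      have e3 := hQ.2.2
      linarith
    have hb : 1 ≤ (x + y) ^ 2 + (h0 - ((2 * h0 - (t + t')) + (t - h0))) ^ 2 := by
      have e1 := hS.b1
      have e2 : (x + y) ^ 2 + (h0 - ((2 * h0 - (t + t')) + (t - h0))) ^ 2 =
          (-y - x) ^ 2 + t' ^ 2 := by ring
      linarith
    have key := o2_e2_corner (x := x) (y := y) (u := t - h0) (e := 2 * h0 - (t + t'))
      (by linarith) (by linarith) (by linarith) (by linarith) hx0 hx1 hx2 hy0 hy hb
    have e3 : x * (2 * h0 - (2 * h0 - (t + t'))) + y * (h0 + (t - h0)) =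
        x * (t + t') - -y * t := by ring
    rw [e3] at key
    rcases key with h5 | h5
    · rcases le_or_gt ((2 * h0 - (t + t')) + (t - h0)) (8 * s) with h6 | h6
      · left; right; right
        refine ⟨abs_le.2 ⟨by linarith, by linarith⟩, abs_le.2 ⟨by linarith, by linarith⟩,
          abs_le.2 ⟨by linarith, by linarith⟩⟩
      · right
        have e4 := thr_lin hs hs1
        linarith
    · right
      linarith

/-- `x = Wc t`, `h0 <= t <= T`, `T <= 2 h0`, `y` at `T`. Signs (1,1): `c = x T - y t`, `x <= 1/2`: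
`c <= h0` with equality only at `T = 2 h0`, `t = h0`: window `V`. (-1,1): negative. (-1,-1):
`c = y t - x T <= 13/20 * t`, `t <= 3 h0 / 2`: `<= .975 h0`. (1,-1): `c = x T + y t`:
`t >= h0 + 8 s`: `upp_side`. `T <= 1002/1000`: `x >= 48/100`, `y >= 627/1000`.
`T <= 11/10`: `x >= 45/100`, `y >= 6/10`. `T <= 147/100`: `of_side` with `side13`.
`T >= 147/100`: with `e = 2 h0 - T`, `u = t - h0`, `w = e + u` the side 23 gives
`1392/1000 y >= 2 h0 w - w ^ 2`, so `c >= h0 + min (4/10 w, ..)`, and `w > 8 s` outside `V`. -/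
theorem rowB_upp_nb : RowB NUpp NB := by
  intro s x y t t' σ σ' hs hs1 hP hQ hσ hσ' hS hc
  obtain ⟨hh1, hh2⟩ := h0_bd
  have hge := cross_ge hS hc
  obtain ⟨hx, hth, ht3⟩ := hP
  have hsq := h0_sq'
  have ht33 : t ^ 2 ≤ 3 := by
    have e1 : t ^ 2 ≤ (3 * h0 / 2) ^ 2 := by
      have : 0 ≤ t := by linarith
      gcongr
    linarith
  obtain ⟨hx0, hx1, -⟩ := upp_bd hth ht33
  have hW := (W_up hth ht33).1
  rw [← hx] at hx0 hx1 hW
  obtain ⟨hy0, -, -, hy1, -, -⟩ := nb_bd hQ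
  have ht' := hS.t1
  have hT2 : t + t' ≤ 2 * h0 := by
    apply le_of_sq2 (by linarith)
    have e3 := hQ.2.2
    linarith
  have e1 : 0 ≤ x * (t + t') := mul_nonneg hx0 (by linarith)
  have e2 : 0 ≤ y * t := mul_nonneg hy0 (by linarith)
  have e3 : 0 ≤ (13 / 20 - y) * t := mul_nonneg (by linarith) (by linarith)
  have e4 : 0 ≤ (1 / 2 - x) * (t + t') := mul_nonneg (by linarith) (by linarith)
  rcases hσ with rfl | rfl <;> rcases hσ' with rfl | rfl <;>
    simp only [one_mul, neg_one_mul] at hS hc hge ⊢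
  · left; right; right
    have e5 : t + t' = 2 * h0 := by linarith
    have e6 : (1 / 2 - x) * (t + t') ≤ 0 := by linarith
    have e7 : x = 1 / 2 := by
      have e8 : (1 / 2 - x) * (t + t') = 0 := le_antisymm e6 e4
      rcases mul_eq_zero.1 e8 with h | h
      · linarith
      · linarith
    have e9 : (t - h0) ^ 2 = 0 := by
      rw [e7] at hW
      linarith
    have e10 : t = h0 := by
      have := pow_eq_zero_iff (two_ne_zero) |>.1 e9
      linarith
    refine ⟨abs_le.2 ⟨by linarith, by linarith⟩, abs_le.2 ⟨by linarith, by linarith⟩,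
      abs_le.2 ⟨by linarith, by linarith⟩⟩
  · rcases o2_e2_uppn_pm hs hs1 ⟨hx, hth, ht3⟩ hQ hS hc with h | h
    · exact Or.inl h
    · exact Or.inr (thr_of_cross h)
  · exfalso; linarith
  · exfalso; linarith

/-- `x` the node at `t >= h0`, `y = Wc T`, `T >= t >= h0`, `T <= 3 h0 / 2`, so `y <= 1/2`, `x <= 13/20`.
(1,1): `c = x T - y t <= 13/20 * 13/10 < h0`. (-1,1): negative. (-1,-1): `c = y t - x T <= 1/2 t < h0`.
(1,-1): `c = x T + y t`: `t >= 1002/1000`: `of_side` with `side12`. `t <= 1002/1000`: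
`x >= 627/1000`, `c >= 627/1000 T + (1/2 - (T - h0)^2) h0 >= .9534` for `h0 <= T <= 13/10`. -/
theorem rowB_nb_upp : RowB NB NUpp := by
  intro s x y t t' σ σ' hs hs1 hP hQ hσ hσ' hS hc
  obtain ⟨hh1, hh2⟩ := h0_bd
  have hge := cross_ge hS hc
  obtain ⟨hy, hth, ht3⟩ := hQ
  have hsq := h0_sq'
  have hthr := thr_le hs hs1
  have ht0 := hP.2.1
  have ht' := hS.t1
  have ht33 : (t + t') ^ 2 ≤ 3 := by
    have e1 : (t + t') ^ 2 ≤ (3 * h0 / 2) ^ 2 := by
      have : 0 ≤ t + t' := by linarith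
      gcongr
    linarith
  obtain ⟨hy0, hy1, hy2⟩ := upp_bd hth ht33
  rw [← hy] at hy0 hy1 hy2
  obtain ⟨hx0, -, -, hx1, -, -⟩ := nb_bd hP
  have e1 : 0 ≤ x * (t + t') := mul_nonneg hx0 (by linarith)
  have e2 : 0 ≤ y * t := mul_nonneg hy0 (by linarith)
  have e3 : 0 ≤ (13 / 20 - x) * (t + t') := mul_nonneg (by linarith) (by linarith)
  have e4 : 0 ≤ (1 / 2 - y) * t := mul_nonneg (by linarith) (by linarith)
  rcases hσ with rfl | rfl <;> rcases hσ' with rfl | rfl <;>
    simp only [one_mul, neg_one_mul] at hS hc hge ⊢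
  · exfalso; linarith
  · right
    apply thr_of_cross
    rcases le_total (1002 / 1000) t with h1 | h1
    · refine of_side hs hs1 hc (side12 hS hc) (o2_e2_len hP h1) ?_
      have e5 : t ^ 2 ≤ (13 / 10) ^ 2 := by
        have : 0 ≤ t := by linarith
        have : t ≤ 13 / 10 := by linarith
        gcongr
      have e6 : x ^ 2 ≤ (13 / 20) ^ 2 := by gcongr
      linarith
    · have e5 : 627 / 1000 ≤ x := o2_e2_near hP (by linarith)
        (a := 1002 / 1000 - 86602 / 100000) (by linarith) (by norm_num)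
      have e6 : 0 ≤ (x - 627 / 1000) * (t + t') := mul_nonneg (by linarith) (by linarith)
      have e7 : 0 ≤ y * (t - h0) := mul_nonneg hy0 (by linarith)
      have e8 : 0 ≤ (y - (1 / 2 - (t + t' - h0) ^ 2)) * h0 := mul_nonneg (by linarith) (by linarith)
      have e9 : 0 ≤ (t + t' - h0) * (44 / 100 - (t + t' - h0)) :=
        mul_nonneg (by linarith) (by linarith)
      have e10 : 0 ≤ (t + t' - h0) * (44 / 100 - (t + t' - h0)) * h0 := mul_nonneg e9 (by linarith)
      have e11 : 0 ≤ (t + t' - h0) * (87 / 100 - h0) := mul_nonneg (by linarith) (by linarith)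
      linarith
  · exfalso; linarith
  · exfalso; linarith

end Pool.Agent.Strip051.LC.E0
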