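import Pool.Agent.Strip051.LC.E0.OutH

/-! # Small rests: the rows `B` with the unit circle and the outer inner node -/

namespace Pool.Agent.Strip051.LC.E0

open Pool.Agent.StripNear Pool.Agent.StripSquare Pool.Agent.Strip051 Pool.Agent.Strip051.Sweep

/-! ### Tools -/

/-- The threshold for small `s`. -/
theorem o2_e3_thr {s s0 : ℝ} (hs : 0 < s) (h : s ≤ s0) :
    h0 * (1 + 2 * thr s) ≤
      86603 / 100000 * (1 + 2 * (17321 / 10000 * s0 + 37 / 10 * s0 ^ 2)) := by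
  obtain ⟨b1, b2⟩ := h0_bd
  have h2 := thr_nonneg hs
  have h1 : thr s ≤ 17321 / 10000 * s0 + 37 / 10 * s0 ^ 2 := by
    unfold thr
    have := pow_le_pow_left₀ hs.le h 2
    linarith
  exact mul_le_mul b2.le (by linarith) (by linarith) (by norm_num)

/-- The outer inner node lies above a line. -/
theorem o2_e3_lin {y T : ℝ} (h : NB y T) (hT : T ≤ 1002 / 1000) :
    797 / 1000 - 17 / 100 * T ≤ y := by
  have k := nb_near h (by linarith)
  obtain ⟨-, h1, -⟩ := h
  obtain ⟨b1, b2⟩ := h0_bd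
  have := mul_nonneg (sub_nonneg.2 h1) (by linarith : 0 ≤ 14 / 100 - (T - h0))
  linarith

/-- The squared length at the outer inner node, from below. -/
theorem o2_e3_lo {y T : ℝ} (h : NB y T) (hT : 1002 / 1000 ≤ T) :
    13966 / 10000 ≤ y ^ 2 + T ^ 2 := by
  obtain ⟨b1, b2⟩ := h0_bd
  have hq := h0_sq'
  rcases le_or_gt T (11 / 10) with h4 | h4
  · have k := nb_near h h4
    have k1 : 6273 / 10000 - 28 / 100 * (T - 1002 / 1000) ≤ y := by
      have m1 := mul_nonneg (sub_nonneg.2 hT) (sub_nonneg.2 h4)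
      have m2 := mul_nonneg (by linarith : 0 ≤ T) (by linarith : 0 ≤ h0 - 86602 / 100000)
      linarith
    have k2 := pow_le_pow_left₀ (by linarith) k1 2
    have k3 := sq_nonneg (T - 1002 / 1000)
    linarith
  · obtain ⟨rfl, h1, h3⟩ := h
    rcases le_or_gt T (119 / 100) with h5 | h5
    · obtain ⟨u1, u2, u3⟩ := upp_bd h1 h3
      have c0 := c3_nonneg T
      have e3 := c3_sq h3
      have q1 := pow_le_pow_left₀ (by linarith : 0 ≤ T) h5 2
      have q2 := pow_le_pow_left₀ (by norm_num) h4.le 2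
      have q3 := pow_le_pow_left₀ (by linarith : 0 ≤ T - h0)
        (by linarith : T - h0 ≤ 324 / 1000) 2
      have k1 : 5 / 4 ≤ c3 T := le_of_sq2 c0 (by linarith)
      have k2 : 1 / 2 ≤ Wc T + 3 / 20 * (c3 T - Wc T) := by linarith
      have k3 := pow_le_pow_left₀ (by norm_num) k2 2
      linarith
    · have q2 := pow_le_pow_left₀ (by norm_num) h5.le 2
      have k3 := sq_nonneg (Wc T + 3 / 20 * (c3 T - Wc T))
      linarith

/-- The squared length at the outer inner node, from above. -/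
theorem o2_e3_hi {y T : ℝ} (h : NB y T) (hT : T ≤ 1592 / 1000) :
    y ^ 2 + T ^ 2 ≤ 26034 / 10000 := by
  obtain ⟨rfl, h1, h3⟩ := h
  obtain ⟨b1, b2⟩ := h0_bd
  obtain ⟨C, C0, eC, eW, -, -⟩ := upp_sq h1 h3
  obtain ⟨u1, u2, u3⟩ := upp_bd h1 h3
  have e3 := c3_sq h3
  have c0 := c3_nonneg T
  rw [eW] at u1 ⊢
  generalize c3 T = Q at *
  have k1 : 6877 / 10000 * C + 726 / 1000 * (T - h0) ≤ 1000004 / 1000000 := by
    have m1 := sq_nonneg (C - 6877 / 10000)
    have m2 := sq_nonneg (T - h0 - 726 / 1000)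
    linarith
  have k2 : 6823 / 10000 * Q + 1592 / 1000 * T ≤ 3 := by
    have m1 := sq_nonneg (Q - 6823 / 10000)
    have m2 := sq_nonneg (T - 1592 / 1000)
    linarith
  have k3 : C - 1 / 2 + 3 / 20 * (Q - (C - 1 / 2)) ≤ 22477 / 10000 - 12473 / 10000 * T := by
    linarith
  have k4 := pow_le_pow_left₀ (by linarith) k3 2
  have k5 := mul_nonneg (by linarith : 0 ≤ T - 866 / 1000) (by linarith : 0 ≤ 1592 / 1000 - T)
  linarith

/-- Long edges to the outer inner node. -/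
theorem o2_e3_far {s X y t t' σ' : ℝ} (hs : 0 < s) (hs1 : s ≤ 11 / 400)
    (hy : NB y (t + t')) (hT : t + t' ≤ 1592 / 1000) (hT1 : 1002 / 1000 ≤ t + t')
    (hσ' : σ' = 1 ∨ σ' = -1) (h : Sides X (σ' * y) t t')
    (hc : 0 ≤ X * (t + t') - σ' * y * t) : thr s ≤ exn X (σ' * y) t t' := by
  have e : (σ' * y) ^ 2 = y ^ 2 := by rcases hσ' with rfl | rfl <;> ring
  have k := side13 h hc
  rw [e] at k
  exact thr_of_cross (of_side hs hs1 hc k (o2_e3_lo hy hT1) (o2_e3_hi hy hT))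

/-! ### Same signs -/

/-- The position of the triangles. -/
theorem o2_e3_pos {x y t T : ℝ} (x0 : 0 ≤ x) (t0 : 0 ≤ t) (ex : x ^ 2 + t ^ 2 = 1)
    (y1 : 797 / 1000 - 17 / 100 * T ≤ y) (y2 : y ≤ 13 / 20) (hT0 : 866 / 1000 ≤ T)
    (hT : T ≤ 1002 / 1000) (hb : 1 ≤ (y - x) ^ 2 + (T - t) ^ 2) :
    93 / 100 ≤ T ∧ 126 / 100 ≤ y ^ 2 + T ^ 2 ∧ t ≤ 16 / 100 := by
  have y0 : 0 ≤ y := by linarith
  have hp : 2 * (x * y + t * T) ≤ y ^ 2 + T ^ 2 := by linarith
  have k1 : 1 ≤ x + t := by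
    refine le_of_sq2 (by linarith) ?_
    have := mul_nonneg x0 t0
    linarith
  have k2 : y ≤ x * y + t * T := by
    have m1 := mul_nonneg y0 (sub_nonneg.2 k1)
    have m2 := mul_nonneg t0 (by linarith : 0 ≤ T - y)
    linarith
  have k3 : 93 / 100 ≤ T := by
    by_contra hcon
    push Not at hcon
    have m1 : 1 - y ≤ 3612 / 10000 := by linarith
    have m2 := pow_le_pow_left₀ (by linarith) m1 2
    have m3 := pow_le_pow_left₀ (by linarith : 0 ≤ T) hcon.le 2
    linarith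
  refine ⟨k3, ?_, ?_⟩
  · have m1 := pow_le_pow_left₀ (by linarith) y1 2
    have m2 := sq_nonneg (T - 93 / 100)
    linarith
  · by_contra hcon
    push Not at hcon
    have t1 : t ≤ 1 := by
      refine le_of_sq2 zero_le_one ?_
      have := sq_nonneg x
      linarith
    have m1 : 11 / 10 * (1 - t) ≤ x := by
      refine le_of_sq2 x0 ?_
      have := mul_nonneg (sub_nonneg.2 hcon.le) (sub_nonneg.2 t1)
      linarith
    have m2 := pow_le_pow_left₀ y0 y2 2
    have m3 := pow_le_pow_left₀ (by linarith : 0 ≤ T) hT 2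
    have m4 := mul_le_mul_of_nonneg_left (by linarith : 6266 / 10000 ≤ y) x0
    have m5 := mul_le_mul_of_nonneg_left k3 t0
    linarith

theorem o2_e3_pp {s x y t t' : ℝ} (hs : 0 < s) (hx : NCir x t)
    (hy : NB y (t + t')) (hT : t + t' ≤ 1002 / 1000) (h : Sides x y t t')
    (hc : 0 ≤ x * (t + t') - y * t) : Win8 s t t' ∨ thr s ≤ exn x y t t' := by
  obtain ⟨b1, b2⟩ := h0_bd
  have y1 := o2_e3_lin hy hT
  obtain ⟨y0, -, -, y2, -, -⟩ := nb_bd hy
  obtain ⟨-, hT0, -⟩ := hy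
  obtain ⟨hx, t0, t1⟩ := hx
  have ex : x ^ 2 + t ^ 2 = 1 := by rw [hx]; exact c1_sq t0 t1.le
  have x0 : 0 ≤ x := by rw [hx]; exact c1_nonneg t
  have hb := h.b1
  have k := side13 h hc
  rw [show t' = t + t' - t by ring] at hb
  obtain ⟨g1, g2, g3⟩ := o2_e3_pos x0 t0 ex y1 y2 (by linarith) hT hb
  rcases le_or_gt s (1 / 50) with h5 | h5
  · right
    refine thr_of_cross ((o2_e3_thr hs h5).trans (le_of_sq2 hc ?_))
    have m2 := pow_le_pow_left₀ y0 y2 2
    have m3 := pow_le_pow_left₀ (by linarith : 0 ≤ t + t') hT 2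
    have m4 := mul_nonneg (sub_nonneg.2 g2)
      (by linarith : 0 ≤ 274 / 100 - (y ^ 2 + (t + t') ^ 2))
    norm_num
    linarith
  · left
    left
    exact ⟨by linarith, abs_le.2 ⟨by linarith, by linarith⟩,
      abs_le.2 ⟨by linarith, by linarith⟩⟩

/-! ### Different signs -/

/-- The lower edge is not flat. -/
theorem o2_e3_t_lo {x y t T : ℝ} (x0 : 0 ≤ x) (t0 : 0 ≤ t) (ex : x ^ 2 + t ^ 2 = 1)
    (y1 : 797 / 1000 - 17 / 100 * T ≤ y) (hT0 : 866 / 1000 ≤ T) (hT : T ≤ 1002 / 1000)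
    (hb : (-y - x) ^ 2 + (T - t) ^ 2 ≤ 3) : 24 / 100 ≤ t := by
  by_contra hcon
  push Not at hcon
  have m0 := pow_le_pow_left₀ t0 hcon.le 2
  have m1 : 97 / 100 ≤ x := by
    refine le_of_sq2 x0 ?_
    linarith
  have m2 := pow_le_pow_left₀ (by linarith)
    (by linarith : 1767 / 1000 - 17 / 100 * T ≤ y + x) 2
  have m3 := pow_le_pow_left₀ (by linarith)
    (by linarith : T - 24 / 100 ≤ T - t) 2
  have m4 := mul_nonneg (sub_nonneg.2 hT0) (sub_nonneg.2 hT0)
  have e : (-y - x) ^ 2 = (y + x) ^ 2 := by ring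
  rw [e] at hb
  linarith

/-- The middle part by the chord. -/
theorem o2_e3_mid {x y t T : ℝ} (x0 : 0 ≤ x) (ex : x ^ 2 + t ^ 2 = 1)
    (y1 : 797 / 1000 - 17 / 100 * T ≤ y) (hT0 : 866 / 1000 ≤ T)
    (h1 : 24 / 100 ≤ t) (h2 : t ≤ 9 / 10) : 9534 / 10000 ≤ x * T - -y * t := by
  have m1 : 11663 / 10000 - 8182 / 10000 * t ≤ x := by
    refine le_of_sq2 x0 ?_
    have := mul_nonneg (sub_nonneg.2 h1) (sub_nonneg.2 h2)
    linarith
  have m2 := mul_le_mul_of_nonneg_left y1 (by linarith : 0 ≤ t)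
  have m3 := mul_nonneg (by linarith : 0 ≤ x - 17 / 100 * t) (sub_nonneg.2 hT0)
  linarith

theorem o2_e3_pm {s x y t t' : ℝ} (hs : 0 < s) (hs1 : s ≤ 11 / 400) (hx : NCir x t)
    (hy : NB y (t + t')) (hT : t + t' ≤ 1002 / 1000) (h : Sides x (-y) t t')
    (hc : 0 ≤ x * (t + t') - -y * t) : Win8 s t t' ∨ thr s ≤ exn x (-y) t t' := by
  obtain ⟨b1, b2⟩ := h0_bd
  have y1 := o2_e3_lin hy hT
  obtain ⟨y0, -, -, y2, -, -⟩ := nb_bd hy
  obtain ⟨-, hT0, -⟩ := hy
  obtain ⟨hx, t0, t1⟩ := hx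
  have ex : x ^ 2 + t ^ 2 = 1 := by rw [hx]; exact c1_sq t0 t1.le
  have x0 : 0 ≤ x := by rw [hx]; exact c1_nonneg t
  have t2 := h.t1
  have hb := h.b3
  have k := side13 h hc
  rw [neg_sq] at k
  rw [show t' = t + t' - t by ring] at hb
  have g1 := o2_e3_t_lo x0 t0 ex y1 (by linarith) hT hb
  rcases le_or_gt t (9 / 10) with h3 | h3
  · right
    exact thr_of_cross ((thr_le hs hs1).trans (o2_e3_mid x0 ex y1 (by linarith) g1 h3))
  rcases le_or_gt s (175 / 10000) with h5 | h5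
  · right
    refine thr_of_cross ((o2_e3_thr hs h5).trans (le_of_sq2 hc ?_))
    have m1 := pow_le_pow_left₀ (by linarith) y1 2
    have m2 := pow_le_pow_left₀ y0 y2 2
    have m3 := pow_le_pow_left₀ (by linarith : 0 ≤ t + t') hT 2
    have m5 := sq_nonneg (t + t' - 9 / 10)
    have m6 : 122 / 100 ≤ y ^ 2 + (t + t') ^ 2 := by linarith
    have m4 := mul_nonneg (sub_nonneg.2 m6)
      (by linarith : 0 ≤ 278 / 100 - (y ^ 2 + (t + t') ^ 2))
    norm_num
    linarith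
  · left
    right
    left
    exact ⟨abs_le.2 ⟨by linarith, by linarith⟩, by linarith,
      abs_le.2 ⟨by linarith, by linarith⟩⟩

/-! ### The rows -/

/-- `x = c1 t`, `T = t + t'`, `y` the node at `T`, `h0 <= T <= 1592/1000`.
`T >= 1002/1000`: `of_side` with `side13`. `T <= 1002/1000`: the signs `(-1, 1)` and `(-1, -1)`
contradict `cross_ge`, equal signs are `o2_e3_pp` (window `H0`), different ones `o2_e3_pm`
(window `H1`). -/
theorem rowB_cir_nb {s x y t t' σ σ' : ℝ} (hs : 0 < s) (hs1 : s ≤ 11 / 400) (hx : NCir x t)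
    (hy : NB y (t + t')) (hT : t + t' ≤ 1592 / 1000) (hσ : σ = 1 ∨ σ = -1)
    (hσ' : σ' = 1 ∨ σ' = -1) (h : Sides (σ * x) (σ' * y) t t')
    (hc : 0 ≤ σ * x * (t + t') - σ' * y * t) :
    Win8 s t t' ∨ thr s ≤ exn (σ * x) (σ' * y) t t' := by
  rcases le_or_gt (1002 / 1000) (t + t') with hT1 | hT1
  · exact Or.inr (o2_e3_far hs hs1 hy hT hT1 hσ' h hc)
  have c := cross_ge h hc
  obtain ⟨b1, b2⟩ := h0_bd
  obtain ⟨y0, -, -, y2, -, -⟩ := nb_bd hy
  have hT0 := hy.2.1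
  have x0 : 0 ≤ x := by rw [hx.1]; exact c1_nonneg t
  have t0 := hx.2.1
  have t1 := hx.2.2
  have m1 := mul_nonneg x0 (by linarith : 0 ≤ t + t')
  have m2 := mul_nonneg y0 t0
  rcases hσ with rfl | rfl <;> rcases hσ' with rfl | rfl <;>
    simp only [one_mul, neg_one_mul] at h hc c ⊢
  · exact o2_e3_pp hs hx hy hT1.le h hc
  · exact o2_e3_pm hs hs1 hx hy hT1.le h hc
  · exfalso
    linarith
  · exfalso
    have m3 := mul_le_mul y2 t1.le t0 (by norm_num)
    linarith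

/-- The position of the triangles with the outer inner node at the short edge. -/
theorem o2_e3_up {x y t T : ℝ} (x0 : 0 ≤ x) (x2 : x ≤ 13 / 20) (y0 : 0 ≤ y)
    (ey : y ^ 2 + T ^ 2 = 1) (h1 : 866 / 1000 ≤ t) (h2 : t ≤ T) (h3 : T < 1)
    (hb : 1 ≤ (-y - x) ^ 2 + (T - t) ^ 2) : T ≤ 942 / 1000 := by
  have m1 := pow_le_pow_left₀ (by linarith : 0 ≤ T - t) (by linarith : T - t ≤ 134 / 1000) 2
  have m2 : 99 / 100 ≤ y + x := by
    refine le_of_sq2 (by linarith) ?_
    have e : (-y - x) ^ 2 = (y + x) ^ 2 := by ring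
    rw [e] at hb
    linarith
  have m3 := pow_le_pow_left₀ (by norm_num) (by linarith : 34 / 100 ≤ y) 2
  refine le_of_sq2 (by norm_num) ?_
  linarith

/-- `x` the node at `t >= h0`, `T = t + t' < 1`, `y = c1 T <= 1/2`. Only the signs `(1, -1)` do
not contradict `cross_ge`: `s <= 14/1000` is decided by `side12`, above it is the window `H1`. -/
theorem rowB_nb_cir : RowB NB NCir := by
  intro s x y t t' σ σ' hs hs1 hx hy hσ hσ' h hc
  have c := cross_ge h hc
  obtain ⟨b1, b2⟩ := h0_bd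
  obtain ⟨x0, -, -, x2, x3, -⟩ := nb_bd hx
  have t0 := hx.2.1
  obtain ⟨hy, T0, T1⟩ := hy
  have ey : y ^ 2 + (t + t') ^ 2 = 1 := by rw [hy]; exact c1_sq T0 T1.le
  have y0 : 0 ≤ y := by rw [hy]; exact c1_nonneg _
  have t2 := h.t1
  have y2 : y ≤ 1 / 2 := by rw [hy]; exact (c1_half T0 T1.le).2 (by linarith)
  have m1 := mul_nonneg x0 T0
  have m2 := mul_nonneg y0 (by linarith : 0 ≤ t)
  rcases hσ with rfl | rfl <;> rcases hσ' with rfl | rfl <;>
    simp only [one_mul, neg_one_mul] at h hc c ⊢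
  · exfalso
    have m3 := mul_le_mul x2 T1.le T0 (by norm_num)
    linarith
  · rcases le_or_gt s (14 / 1000) with h5 | h5
    · right
      refine thr_of_cross ((o2_e3_thr hs h5).trans (le_of_sq2 hc ?_))
      have k := side12 h hc
      have m3 := pow_le_pow_left₀ x0 x2 2
      have m4 := pow_le_pow_left₀ (by linarith) (by linarith : t ≤ 1) 2
      have m5 := mul_nonneg (sub_nonneg.2 x3) (by linarith : 0 ≤ 283 / 100 - (x ^ 2 + t ^ 2))
      norm_num
      linarith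
    · left
      right
      left
      have hb := h.b1
      rw [show t' = t + t' - t by ring] at hb
      have g := o2_e3_up x0 x2 y0 ey (by linarith) (by linarith) T1 hb
      exact ⟨abs_le.2 ⟨by linarith, by linarith⟩, by linarith,
        abs_le.2 ⟨by linarith, by linarith⟩⟩
  · exfalso
    linarith
  · exfalso
    have m3 := mul_le_mul y2 (by linarith : t ≤ 1) (by linarith) (by norm_num)
    linarith

end Pool.Agent.Strip051.LC.E0
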