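import Pool.Agent.Strip051.LC.E0.OutH

/-! # Small rests: the rows with two nodes on `W` -/

namespace Pool.Agent.Strip051.LC.E0

open Pool.Agent.StripNear Pool.Agent.StripSquare Pool.Agent.Strip051 Pool.Agent.Strip051.Sweep

/-- A node next to the horizontal direction. -/
private def o2_w1_Sm (s x T : ℝ) : Prop :=
  0 ≤ T ∧ T ≤ 5 * s ∧ 1 + 13 / 10 * T ≤ x ∧ x ≤ 5 / 4

/-- A node on `W` below `h0` and next to `h0`. -/
private def o2_w1_Lo (s x T : ℝ) : Prop :=
  h0 - 8 * s ≤ T ∧ T < h0 ∧ 145 / 100 ≤ x ∧ x ≤ 3 / 2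

/-- A node on `W` above `h0` and next to `h0`. -/
private def o2_w1_Up (s x T : ℝ) : Prop :=
  h0 ≤ T ∧ T ≤ h0 + 8 * s ∧ 45 / 100 ≤ x ∧ x ≤ 1 / 2

/-- The cases of a node on `W`: it decides or it is next to a lattice direction. -/
private theorem o2_w1_cases {s x T c : ℝ} (hs : 0 < s) (hs1 : s ≤ 11 / 400) (h : NW x T)
    (hc : 0 ≤ c) (hp : (x ^ 2 + T ^ 2) * (4 - (x ^ 2 + T ^ 2)) ≤ 4 * c ^ 2) :
    o2_w1_Sm s x T ∨ o2_w1_Lo s x T ∨ o2_w1_Up s x T ∨ h0 * (1 + 2 * thr s) ≤ c := by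
  obtain ⟨b1, b2⟩ := h0_bd
  have hh := h0_pos
  rcases h with ⟨rfl, h1, h2⟩ | ⟨rfl, h1, h2⟩
  · obtain ⟨l1, l2, l3, l4⟩ := low_bd h1 h2
    rcases lt_or_ge T (5 * s) with h3 | h3
    · left
      have h4 : T ≤ 7 / 50 := by linarith
      refine ⟨h1, h3.le, low_near h1 h4, ?_⟩
      have h5 : T ≤ 1375 / 10000 := by linarith
      have := mul_le_mul (b2.le) h5 h1 (by norm_num)
      linarith
    rcases le_or_gt T (h0 - 8 * s) with h4 | h4
    · right; right; right
      exact low_side hs hs1 h3 h4 hc hp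
    · right; left
      refine ⟨h4.le, h2, ?_, l2⟩
      have h5 : h0 - T ≤ 22 / 100 := by linarith
      have h6 : 0 ≤ h0 - T := by linarith
      have := pow_le_pow_left₀ h6 h5 2
      linarith
  · have h3 : T ^ 2 ≤ 3 := by
      have := pow_le_pow_left₀ (by linarith : 0 ≤ T) (by linarith : T ≤ 17 / 10) 2
      linarith
    obtain ⟨l1, l2, l3⟩ := upp_bd h1 h3
    rcases le_or_gt (h0 + 8 * s) T with h4 | h4
    · right; right; right
      exact upp_side hs hs1 h4 h2 hc hp
    · right; right; left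
      refine ⟨h1, h4.le, ?_, l2⟩
      have h5 : T - h0 ≤ 22 / 100 := by linarith
      have h6 : 0 ≤ T - h0 := by linarith
      have := pow_le_pow_left₀ h6 h5 2
      linarith

/-- Two nodes next to the horizontal direction are too close or too far. -/
private theorem o2_w1_short {x y T : ℝ} (hx : 1 ≤ x) (hx1 : x ≤ 5 / 4) (hy : 1 ≤ y)
    (hy1 : y ≤ 5 / 4) (hT : 0 ≤ T) (hT1 : T ≤ 3 / 10) : (x - y) ^ 2 + T ^ 2 < 1 := by
  have h1 : (x - y) ^ 2 ≤ 1 / 16 := by
    nlinarith
  nlinarith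

private theorem o2_w1_long {x y T : ℝ} (h : 19 / 10 ≤ x + y) : 3 < (x + y) ^ 2 + T ^ 2 := by
  have := sq_nonneg T
  nlinarith

/-- `x T' - T / 2` with `x >= 1 + 13 / 10 T`, `T + T' > h0 + 8 s`. -/
private theorem o2_w1_up {s x y t t' : ℝ} (hs : 0 < s) (hs1 : s ≤ 11 / 400) (hx : o2_w1_Sm s x t)
    (hy : o2_w1_Up s y t') (h : h0 + 8 * s < t + t') : h0 * (1 + 2 * thr s) ≤ x * t' - y * t := by
  obtain ⟨b1, b2⟩ := h0_bd
  obtain ⟨x1, x2, x3, x4⟩ := hx
  obtain ⟨y1, y2, y3, y4⟩ := hy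
  have k1 := thr_lin hs hs1
  have k2 : (1 + 13 / 10 * t) * t' ≤ x * t' := mul_le_mul_of_nonneg_right x3 (by linarith)
  have k3 : y * t ≤ 1 / 2 * t := mul_le_mul_of_nonneg_right y4 x1
  have k4 : t * (86602 / 100000) ≤ t * t' := mul_le_mul_of_nonneg_left (by linarith) x1
  linarith

theorem rowA_W_W : RowA NW NW := by
  intro s x y t t' σ σ' hs hs1 hx hy hσ hσ' hS hc0
  obtain ⟨b1, b2⟩ := h0_bd
  have hh := h0_pos
  have hq := h0_sq'
  have e : σ * x * (t + t') - (σ * x + σ' * y) * t = σ * x * t' - σ' * y * t := by ring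
  have hc : 0 ≤ σ * x * (t + t') - (σ * x + σ' * y) * t := by rw [e]; exact hc0
  have s12 := side12 hS hc
  have s23 := side23 hS hc
  rw [e] at s12 s23
  have eσ : σ ^ 2 = 1 := by rcases hσ with rfl | rfl <;> norm_num
  have eσ' : σ' ^ 2 = 1 := by rcases hσ' with rfl | rfl <;> norm_num
  rw [show (σ * x) ^ 2 = x ^ 2 by rw [mul_pow, eσ, one_mul]] at s12
  rw [show (σ * x + σ' * y - σ * x) ^ 2 = y ^ 2 by
    rw [add_sub_cancel_left, mul_pow, eσ', one_mul]] at s23
  have fin : h0 * (1 + 2 * thr s) ≤ σ * x * t' - σ' * y * t →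
      Win8 s t t' ∨ thr s ≤ exn (σ * x) (σ * x + σ' * y) t t' :=
    fun h => Or.inr (thr_of_cross (by rw [e]; exact h))
  have tl := thr_le hs hs1
  have t0 := hS.t0
  have t1 := hS.t1
  have c1 := hS.c1
  have c3 := hS.c3
  have x13 : (σ * x + σ' * y) ^ 2 = (x + y) ^ 2 ∨
      (σ * x + σ' * y) ^ 2 = (x - y) ^ 2 := by
    rcases hσ with rfl | rfl <;> rcases hσ' with rfl | rfl
    · left; ring
    · right; ring
    · right; ring
    · left; ring
  rcases o2_w1_cases hs hs1 hx hc0 s12 with h1 | h1 | h1 | h1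
  · rcases o2_w1_cases hs hs1 hy hc0 s23 with h2 | h2 | h2 | h2
    · exfalso
      obtain ⟨x1, x2, x3, x4⟩ := h1
      obtain ⟨y1, y2, y3, y4⟩ := h2
      have k1 := o2_w1_short (x := x) (y := y) (T := t + t') (by linarith) x4 (by linarith) y4
        (by linarith) (by linarith)
      have k2 := o2_w1_long (x := x) (y := y) (T := t + t') (by linarith)
      rcases x13 with h | h <;> rw [h] at c1 c3 <;> linarith
    · left; left
      obtain ⟨x1, x2, x3, x4⟩ := h1
      obtain ⟨y1, y2, y3, y4⟩ := h2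
      refine ⟨by linarith, ?_, ?_⟩ <;> rw [abs_le] <;> constructor <;> linarith
    · rcases le_or_gt (t + t') (h0 + 8 * s) with h3 | h3
      · left; left
        obtain ⟨x1, x2, x3, x4⟩ := h1
        obtain ⟨y1, y2, y3, y4⟩ := h2
        refine ⟨by linarith, ?_, ?_⟩ <;> rw [abs_le] <;> constructor <;> linarith
      · have k := o2_w1_up hs hs1 h1 h2 h3
        obtain ⟨x1, x2, x3, x4⟩ := h1
        obtain ⟨y1, y2, y3, y4⟩ := h2
        have k1 : 0 ≤ y * t := mul_nonneg (by linarith) x1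
        have k2 : y * t ≤ 1 / 2 * t := mul_le_mul_of_nonneg_right y4 x1
        have k3 : 1 * t' ≤ x * t' := mul_le_mul_of_nonneg_right (by linarith) t1
        rcases hσ with rfl | rfl <;> rcases hσ' with rfl | rfl
        · exact fin (by linarith)
        · exact fin (by linarith)
        · exfalso; linarith
        · exfalso; linarith
    · exact fin h2
  · rcases o2_w1_cases hs hs1 hy hc0 s23 with h2 | h2 | h2 | h2
    · left; right; left
      obtain ⟨x1, x2, x3, x4⟩ := h1
      obtain ⟨y1, y2, y3, y4⟩ := h2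
      refine ⟨?_, by linarith, ?_⟩ <;> rw [abs_le] <;> constructor <;> linarith
    · obtain ⟨x1, x2, x3, x4⟩ := h1
      obtain ⟨y1, y2, y3, y4⟩ := h2
      have k2 := o2_w1_long (x := x) (y := y) (T := t + t') (by linarith)
      have k3 : 145 / 100 * t' ≤ x * t' := mul_le_mul_of_nonneg_right (by linarith) t1
      have k4 : 145 / 100 * t ≤ y * t := mul_le_mul_of_nonneg_right (by linarith) t0
      rcases hσ with rfl | rfl <;> rcases hσ' with rfl | rfl
      · exfalso
        rw [one_mul, one_mul] at c3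
        linarith
      · exact fin (by linarith)
      · exfalso; linarith
      · exfalso
        rw [show (-1 * x + -1 * y) ^ 2 = (x + y) ^ 2 by ring] at c3
        linarith
    · obtain ⟨x1, x2, x3, x4⟩ := h1
      obtain ⟨y1, y2, y3, y4⟩ := h2
      have k2 := o2_w1_long (x := x) (y := y) (T := t + t') (by linarith)
      have k3 : 145 / 100 * t' ≤ x * t' := mul_le_mul_of_nonneg_right (by linarith) t1
      have k4 : 45 / 100 * t ≤ y * t := mul_le_mul_of_nonneg_right (by linarith) t0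
      rcases hσ with rfl | rfl <;> rcases hσ' with rfl | rfl
      · exfalso
        rw [one_mul, one_mul] at c3
        linarith
      · exact fin (by linarith)
      · exfalso; linarith
      · exfalso
        rw [show (-1 * x + -1 * y) ^ 2 = (x + y) ^ 2 by ring] at c3
        linarith
    · exact fin h2
  · rcases o2_w1_cases hs hs1 hy hc0 s23 with h2 | h2 | h2 | h2
    · rcases le_or_gt (t + t') (h0 + 8 * s) with h3 | h3
      · left; right; left
        obtain ⟨x1, x2, x3, x4⟩ := h1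
        obtain ⟨y1, y2, y3, y4⟩ := h2
        refine ⟨?_, by linarith, ?_⟩ <;> rw [abs_le] <;> constructor <;> linarith
      · have k := o2_w1_up hs hs1 h2 h1 (by linarith : h0 + 8 * s < t' + t)
        obtain ⟨x1, x2, x3, x4⟩ := h1
        obtain ⟨y1, y2, y3, y4⟩ := h2
        have k1 : 0 ≤ x * t' := mul_nonneg (by linarith) t1
        have k2 : x * t' ≤ 1 / 2 * t' := mul_le_mul_of_nonneg_right x4 t1
        have k3 : 1 * t ≤ y * t := mul_le_mul_of_nonneg_right (by linarith) t0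
        rcases hσ with rfl | rfl <;> rcases hσ' with rfl | rfl
        · exfalso; linarith
        · exact fin (by linarith)
        · exfalso; linarith
        · exact fin (by linarith)
    · obtain ⟨x1, x2, x3, x4⟩ := h1
      obtain ⟨y1, y2, y3, y4⟩ := h2
      have k2 := o2_w1_long (x := x) (y := y) (T := t + t') (by linarith)
      have k3 : 45 / 100 * t' ≤ x * t' := mul_le_mul_of_nonneg_right (by linarith) t1
      have k4 : 145 / 100 * t ≤ y * t := mul_le_mul_of_nonneg_right (by linarith) t0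
      rcases hσ with rfl | rfl <;> rcases hσ' with rfl | rfl
      · exfalso
        rw [one_mul, one_mul] at c3
        linarith
      · exact fin (by linarith)
      · exfalso; linarith
      · exfalso
        rw [show (-1 * x + -1 * y) ^ 2 = (x + y) ^ 2 by ring] at c3
        linarith
    · left; right; right
      obtain ⟨x1, x2, x3, x4⟩ := h1
      obtain ⟨y1, y2, y3, y4⟩ := h2
      have k1 : t + t' ≤ 2 * h0 := by
        refine le_of_sq2 (by linarith) ?_
        have := sq_nonneg (σ * x + σ' * y)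
        rw [mul_pow, hq]
        linarith
      refine ⟨?_, ?_, ?_⟩ <;> rw [abs_le] <;> constructor <;> linarith
    · exact fin h2
  · exact fin h1

/-- The case of two nodes on both sides of `h0`. -/
private theorem o2_w1_two {s x y t T : ℝ} (hs : 0 < s) (hs1 : s ≤ 11 / 400)
    (hx : NW x t) (hy : NW y T) (h1 : h0 - 8 * s ≤ t) (h2 : t < h0) (h3 : h0 ≤ T)
    (h4 : T ≤ h0 + 8 * s) (h : 8 * s ≤ T - t) :
    h0 * (1 + 2 * thr s) ≤ x * T - y * t := by
  obtain ⟨b1, b2⟩ := h0_bd
  have hh := h0_pos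
  obtain ⟨C1, C10, eC1, eW1⟩ : ∃ C, 0 ≤ C ∧ C ^ 2 + (h0 - t) ^ 2 = 1 ∧ x = C + 1 / 2 := by
    rcases hx with ⟨rfl, u1, u2⟩ | ⟨rfl, u1, u2⟩
    · obtain ⟨C, C0, eC, eW, -, -⟩ := low_sq u1 u2
      exact ⟨C, C0, eC, eW⟩
    · linarith
  obtain ⟨C2, C20, eC2, eW2⟩ : ∃ C, 0 ≤ C ∧ C ^ 2 + (T - h0) ^ 2 = 1 ∧ y = C - 1 / 2 := by
    rcases hy with ⟨rfl, u1, u2⟩ | ⟨rfl, u1, u2⟩
    · linarith
    · have : T ^ 2 ≤ 3 := by
        have := pow_le_pow_left₀ (by linarith : 0 ≤ T) (by linarith : T ≤ 17 / 10) 2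
        linarith
      obtain ⟨C, C0, eC, eW, -, -⟩ := upp_sq u1 this
      exact ⟨C, C0, eC, eW⟩
  subst eW1
  subst eW2
  obtain ⟨a, rfl⟩ : ∃ a, t = h0 - a := ⟨h0 - t, by ring⟩
  obtain ⟨b, rfl⟩ : ∃ b, T = h0 + b := ⟨T - h0, by ring⟩
  rw [sub_sub_cancel] at eC1
  rw [add_sub_cancel_left] at eC2
  have a0 : 0 < a := by linarith
  have a1 : a ≤ 22 / 100 := by linarith
  have b0 : 0 ≤ b := by linarith
  have b1' : b ≤ 22 / 100 := by linarith
  have ab0 : 0 ≤ a + b := by linarith
  have ab1 : a + b ≤ 1 := by linarith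
  have eC := c1_sq ab0 ab1
  have C0 := c1_nonneg (a + b)
  have L := line_thr hs hs1 (by linarith : 8 * s ≤ a + b) (by linarith) C0 eC
  generalize c1 (a + b) = C at *
  have k1 : C ≤ C1 := by
    refine le_of_sq2 C10 ?_
    nlinarith
  have k2 : C2 ≤ 1 := by
    refine le_of_sq2 zero_le_one ?_
    nlinarith
  have k3 : 1 - b ^ 2 ≤ C2 := by nlinarith
  have k4 : 9 / 10 ≤ C1 := by
    refine le_of_sq2 C10 ?_
    nlinarith
  have k5 : (1 - C2) * a ≤ b ^ 2 * a := mul_le_mul_of_nonneg_right (by linarith) a0.le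
  have k6 : b ^ 2 * a ≤ b * (22 / 100 * (22 / 100)) := by
    rw [pow_two, mul_assoc]
    exact mul_le_mul_of_nonneg_left (mul_le_mul b1' a1 a0.le (by norm_num)) b0
  have k7 : 9 / 10 * b ≤ C1 * b := mul_le_mul_of_nonneg_right k4 b0
  have k8 : 0 ≤ h0 * (1 - C2 + (C1 - C)) := mul_nonneg hh.le (by linarith)
  have e : (C1 + 1 / 2) * (h0 + b) - (C2 - 1 / 2) * (h0 - a) = h0 * C + (a + b) / 2 +
      (h0 * (1 - C2 + (C1 - C)) + C1 * b - (1 - C2) * a) := by ring
  rw [e]
  linarith

theorem rowB_W_W : RowB NW NW := by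
  intro s x y t t' σ σ' hs hs1 hx hy hσ hσ' hS hc0
  obtain ⟨b1, b2⟩ := h0_bd
  have hh := h0_pos
  have hq := h0_sq'
  have s12 := side12 hS hc0
  have s13 := side13 hS hc0
  have eσ : σ ^ 2 = 1 := by rcases hσ with rfl | rfl <;> norm_num
  have eσ' : σ' ^ 2 = 1 := by rcases hσ' with rfl | rfl <;> norm_num
  rw [show (σ * x) ^ 2 = x ^ 2 by rw [mul_pow, eσ, one_mul]] at s12
  rw [show (σ' * y) ^ 2 = y ^ 2 by rw [mul_pow, eσ', one_mul]] at s13
  have fin : h0 * (1 + 2 * thr s) ≤ σ * x * (t + t') - σ' * y * t →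
      Win8 s t t' ∨ thr s ≤ exn (σ * x) (σ' * y) t t' :=
    fun h => Or.inr (thr_of_cross h)
  have tl := thr_le hs hs1
  have t0 := hS.t0
  have t1 := hS.t1
  have q1 := hS.b1
  have q3 := hS.b3
  have two := fun h1 h2 h3 h4 h5 => o2_w1_two (s := s) (x := x) (y := y) (t := t)
    (T := t + t') hs hs1 hx hy h1 h2 h3 h4 h5
  have cx := o2_w1_cases hs hs1 hx hc0 s12
  have cy := o2_w1_cases hs hs1 hy hc0 s13
  obtain ⟨T, eT⟩ : ∃ T, T = t + t' := ⟨_, rfl⟩
  have et : t' = T - t := by linarith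
  rw [← eT] at two cx cy hc0
  rcases cx with h1 | h1 | h1 | h1
  · rcases cy with h2 | h2 | h2 | h2
    · exfalso
      obtain ⟨x1, x2, x3, x4⟩ := h1
      obtain ⟨y1, y2, y3, y4⟩ := h2
      have k1 := o2_w1_short (x := x) (y := y) (T := t') (by linarith) x4 (by linarith) y4
        (by linarith) (by linarith)
      have k2 := o2_w1_long (x := x) (y := y) (T := t') (by linarith)
      rcases hσ with rfl | rfl <;> rcases hσ' with rfl | rfl
      · rw [show (1 * y - 1 * x) ^ 2 = (x - y) ^ 2 by ring] at q1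
        linarith
      · rw [show (-1 * y - 1 * x) ^ 2 = (x + y) ^ 2 by ring] at q3
        linarith
      · rw [show (1 * y - -1 * x) ^ 2 = (x + y) ^ 2 by ring] at q3
        linarith
      · rw [show (-1 * y - -1 * x) ^ 2 = (x - y) ^ 2 by ring] at q1
        linarith
    · exfalso
      obtain ⟨x1, x2, x3, x4⟩ := h1
      obtain ⟨y1, y2, y3, y4⟩ := h2
      have k2 := o2_w1_long (x := x) (y := y) (T := t') (by linarith)
      have k3 : 1 * T ≤ x * T := mul_le_mul_of_nonneg_right (by linarith) (by linarith)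
      have k4 : y * t ≤ 3 / 2 * t := mul_le_mul_of_nonneg_right y4 x1
      rcases hσ with rfl | rfl <;> rcases hσ' with rfl | rfl
      · have k5 : (1 * y - 1 * x) ^ 2 ≤ (1 / 2) ^ 2 :=
          pow_le_pow_left₀ (by linarith) (by linarith) 2
        have k6 : t' ^ 2 < h0 ^ 2 := pow_lt_pow_left₀ (by linarith) t1 (by norm_num)
        rw [hq] at k6
        linarith
      · rw [show (-1 * y - 1 * x) ^ 2 = (x + y) ^ 2 by ring] at q3
        linarith
      · rw [show (1 * y - -1 * x) ^ 2 = (x + y) ^ 2 by ring] at q3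
        linarith
      · linarith
    · left; left
      obtain ⟨x1, x2, x3, x4⟩ := h1
      obtain ⟨y1, y2, y3, y4⟩ := h2
      refine ⟨by linarith, ?_, ?_⟩ <;> rw [abs_le] <;> constructor <;> linarith
    · exact fin (by rw [← eT]; exact h2)
  · rcases cy with h2 | h2 | h2 | h2
    · exfalso
      obtain ⟨x1, x2, x3, x4⟩ := h1
      obtain ⟨y1, y2, y3, y4⟩ := h2
      linarith
    · left; right; left
      obtain ⟨x1, x2, x3, x4⟩ := h1
      obtain ⟨y1, y2, y3, y4⟩ := h2
      refine ⟨?_, by linarith, ?_⟩ <;> rw [abs_le] <;> constructor <;> linarith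
    · obtain ⟨x1, x2, x3, x4⟩ := h1
      obtain ⟨y1, y2, y3, y4⟩ := h2
      rcases le_or_gt t' (8 * s) with h3 | h3
      · left; right; left
        refine ⟨?_, h3, ?_⟩ <;> rw [abs_le] <;> constructor <;> linarith
      · have k := two x1 x2 y1 y2 (by linarith)
        have k2 := o2_w1_long (x := x) (y := y) (T := t') (by linarith)
        have k3 : 1 * T ≤ x * T := mul_le_mul_of_nonneg_right (by linarith) (by linarith)
        have k4 : y * t ≤ 1 / 2 * t := mul_le_mul_of_nonneg_right y4 t0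
        have k5 : 0 ≤ y * t := mul_nonneg (by linarith) t0
        rcases hσ with rfl | rfl <;> rcases hσ' with rfl | rfl
        · exact fin (by rw [← eT]; linarith)
        · exfalso
          rw [show (-1 * y - 1 * x) ^ 2 = (x + y) ^ 2 by ring] at q3
          linarith
        · exfalso; linarith
        · exfalso; linarith
    · exact fin (by rw [← eT]; exact h2)
  · rcases cy with h2 | h2 | h2 | h2
    · exfalso
      obtain ⟨x1, x2, x3, x4⟩ := h1
      obtain ⟨y1, y2, y3, y4⟩ := h2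
      linarith
    · exfalso
      obtain ⟨x1, x2, x3, x4⟩ := h1
      obtain ⟨y1, y2, y3, y4⟩ := h2
      linarith
    · left; right; left
      obtain ⟨x1, x2, x3, x4⟩ := h1
      obtain ⟨y1, y2, y3, y4⟩ := h2
      refine ⟨?_, by linarith, ?_⟩ <;> rw [abs_le] <;> constructor <;> linarith
    · exact fin (by rw [← eT]; exact h2)
  · exact fin (by rw [← eT]; exact h1)

end Pool.Agent.Strip051.LC.E0
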