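import Pool.Agent.Strip051.LC.E0.OutH

/-! # Small rests: the rows `A` with the unit circle and `W` below `h0` -/

namespace Pool.Agent.Strip051.LC.E0

open Pool.Agent.StripNear Pool.Agent.StripSquare Pool.Agent.Strip051 Pool.Agent.Strip051.Sweep

/-- The cross product in terms of the sides. -/
theorem o2_a1_goal {s X Y t t' : ℝ} (h : h0 * (1 + 2 * thr s) ≤ X * t' - Y * t) :
    thr s ≤ exn X (X + Y) t t' := by
  refine thr_of_cross ?_
  have e : X * (t + t') - (X + Y) * t = X * t' - Y * t := by ring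
  rw [e]
  exact h

/-- The curve `W` and the side `23`. -/
theorem o2_a1_side {s X Y t t' : ℝ} (hs : 0 < s) (hs1 : s ≤ 11 / 400)
    (h : Sides X (X + Y) t t') (hY : Y ^ 2 = Wc t' ^ 2) (hc : 0 ≤ X * t' - Y * t)
    (h1 : 5 * s ≤ t') (h2 : t' ≤ h0 - 8 * s) : h0 * (1 + 2 * thr s) ≤ X * t' - Y * t := by
  have e : X * (t + t') - (X + Y) * t = X * t' - Y * t := by ring
  have k := side23 h (by rw [e]; exact hc)
  rw [e, add_sub_cancel_left, hY] at k
  exact low_side hs hs1 h1 h2 hc k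

/-- The sum of the heights if the signs are `1, -1`. -/
theorem o2_a1_sum {t t' : ℝ} (h0t : 0 ≤ t) (h0t' : 0 ≤ t') (ht' : t' < h0)
    (h : 1 ≤ (c1 t - Wc t') ^ 2 + (t + t') ^ 2) (h1 : t < 1) : h0 ≤ t + t' := by
  by_contra hlt
  rw [not_le] at hlt
  obtain ⟨C, C0, eC, eW, -, -⟩ := low_sq h0t' ht'
  have hq := h0_sq'
  have hh := h0_pos
  have e1 := c1_sq h0t h1.le
  have a0 := c1_nonneg t
  have a1 : c1 t ≤ 1 := by
    refine le_of_sq2 zero_le_one ?_
    have := sq_nonneg t
    linarith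
  have a2 : C ≤ c1 t := by
    refine le_of_sq2 a0 ?_
    have := pow_le_pow_left₀ h0t (by linarith : t ≤ h0 - t') 2
    linarith
  obtain ⟨D, hD⟩ : ∃ D, D = c1 t - C := ⟨_, rfl⟩
  obtain ⟨e, he⟩ : ∃ e, e = h0 - (t + t') := ⟨_, rfl⟩
  have d0 : 0 ≤ D := by linarith
  have d1 : D ≤ 1 := by linarith
  have v0 : 0 < e := by linarith
  have v1 : e ≤ h0 := by linarith
  have E1 : c1 t - Wc t' = D - 1 / 2 := by rw [eW, hD]; ring
  have E2 : t + t' = h0 - e := by rw [he]; ring
  rw [E1, E2] at h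
  have k1 := mul_nonneg d0 (by linarith : 0 ≤ 1 - D)
  have k2 := mul_pos v0 (by linarith : 0 < 2 * h0 - e)
  linarith

/-- The signs `1, -1`, the second node high. -/
theorem o2_a1_high {s t t' : ℝ} (hs : 0 < s) (hs1 : s ≤ 11 / 400) (h1 : t < 1)
    (h0t' : 0 ≤ t') (ht' : t' < h0) (h2 : h0 - 8 * s < t') (h8 : 8 * s < t) :
    h0 * (1 + 2 * thr s) ≤ c1 t * t' + Wc t' * t := by
  obtain ⟨C, C0, eC, eW, -, -⟩ := low_sq h0t' ht'
  have hq := h0_sq'
  obtain ⟨b1, b2⟩ := h0_bd
  have c8 := c1_nonneg (8 * s)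
  have e8 := c1_sq (by linarith : 0 ≤ 8 * s) (by linarith : 8 * s ≤ 1)
  have hW := (low_bd h0t' ht').2.2.2
  have k1 := c1_chord (by linarith : 0 ≤ 8 * s) h8.le h1.le le_rfl
  have z := c1_nonneg 1
  -- the values at the ends
  have l1 := line_thr hs hs1 le_rfl (by linarith) c8 e8
  have u0 : 0 ≤ h0 - t' := by linarith
  have a2 : c1 (8 * s) ≤ C := by
    refine le_of_sq2 C0 ?_
    have := pow_le_pow_left₀ u0 (by linarith : h0 - t' ≤ 8 * s) 2
    linarith
  have v1 : h0 * (1 + 2 * thr s) ≤ t' * c1 (8 * s) + 8 * s * Wc t' := by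
    have m1 := mul_nonneg (by linarith : 0 ≤ 8 * s) (by linarith : 0 ≤ C - c1 (8 * s))
    have m2 := mul_nonneg (by linarith : 0 ≤ 8 * s - (h0 - t')) c8
    rw [eW]
    nlinarith
  have v2 : h0 * (1 + 2 * thr s) ≤ Wc t' := by
    have m1 := thr_le hs hs1
    have m2 : (h0 - t') ^ 2 ≤ (22 / 100) ^ 2 := pow_le_pow_left₀ u0 (by linarith) 2
    linarith
  have g1 : 0 < 1 - 8 * s := by linarith
  have w1 := mul_le_mul_of_nonneg_left v1 (by linarith : 0 ≤ 1 - t)
  have w2 := mul_le_mul_of_nonneg_left v2 (by linarith : 0 ≤ t - 8 * s)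
  have w3 := mul_nonneg z (by linarith : 0 ≤ t - 8 * s)
  have w4 : c1 (8 * s) * (1 - t) ≤ c1 t * (1 - 8 * s) := by linarith
  have w5 := mul_le_mul_of_nonneg_left w4 h0t'
  refine le_of_mul_le_mul_left ?_ g1
  generalize h0 * (1 + 2 * thr s) = H at *
  nlinarith

/-- The second node low, the sum of the heights large. -/
theorem o2_a1_low {s c t t' W : ℝ} (hs : 0 < s) (hs1 : s ≤ 11 / 400) (h0t' : 0 ≤ t')
    (h5 : t' < 5 * s) (hW : 1 + 13 / 10 * t' ≤ W) (hc : c ≤ 1 / 2) (h8 : h0 + 8 * s < t + t') :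
    h0 * (1 + 2 * thr s) ≤ W * t - c * t' := by
  obtain ⟨b1, b2⟩ := h0_bd
  refine (thr_lin hs hs1).trans ?_
  have t0 : h0 + 3 * s ≤ t := by linarith
  have k1 := mul_le_mul_of_nonneg_right hW (by linarith : 0 ≤ t)
  have k2 := mul_nonneg h0t' (by linarith : 0 ≤ t - 866 / 1000)
  have k3 := mul_nonneg h0t' (by linarith : 0 ≤ 1 / 2 - c)
  nlinarith

/-- (REMARK for all rows: `Win8` has three windows `H0` = first, `H1` = second, `V` = third; each has a
third condition on `t + t'`. Where this text says `outside H0` etc. there is also the case that only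
this third condition fails; it is usually impossible or the cross product is larger by `8 s - ..`.)
`H := h0 * (1 + 2 * thr s) <= h0 + 16/5 s` (`thr_lin`), goal by `thr_of_cross`; the cross product
`c = σ x t' - σ' y t` is at least `h0` (`cross_ge`). `x = c1 t`, `y = Wc t' = 1/2 + C`,
`C^2 + (h0 - t')^2 = 1` (`low_sq`).
(1,1): `c <= t' < h0`, contradiction. (-1,1): `c <= 0`, contradiction.
(1,-1): `c = c1 t * t' + W t`. First `t + t' >= h0`: else, with `D = c1 t - C > 0` (as `t < h0 - t'`),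
`D <= 1`, `e = h0 - t - t' > 0`: `X13 = D - 1/2`, `T13 = h0 - e`,
`X13^2 + T13^2 = 1 - D - 2 h0 e + D^2 + e^2 < 1`. Now if `5 s <= t' <= h0 - 8 s`: `low_side` with
`side23`. If `t' < 5 s`: no window `H1` gives `|t - h0| > 8 s`, so `t > h0 + 8 s` (as `t >= h0 - t'`)
and `c >= W t >= t`. If `t' > h0 - 8 s`: no window `H0` gives `t > 8 s`; by `c1_chord` between `8 s`
and `1` the function `f t = c1 t * t' + W t` is at least its value at `8 s` or at `1`;
`f 1 = W >= 1.4`, `f (8 s) >= h0 C8 + 4 s >= H` by `line_thr` at `8 s`, `C8 = c1 (8 s) <= C`.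
(-1,-1): `c = W t - c1 t * t'`. `5 s <= t' <= h0 - 8 s`: `low_side`. `t' > h0 - 8 s`: the squared
length of the side 13 is `1 + p + 2 (c1 W + t t') > 3` since `p = W^2 + t'^2 > 2.5`. `t' < 5 s`:
no window: `t > h0 + 8 s`, then `c1 t <= 1/2`, `W >= 1`, `c >= h0 + 8 s - 5/2 s`; or
`t < h0 - 8 s`, then `W <= 1 + 2 h0 t'` (`low_bd`), `c1 t >= 1/2`, `c <= h0 - 8 s + t' < h0`. -/
theorem rowA_cir_low : RowA NCir NLow := by
  intro s x y t t' σ σ' hs hs1 hx hy hσ hσ' hS hc
  obtain ⟨rfl, h0t, h1t⟩ := hx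
  obtain ⟨rfl, h0t', ht'⟩ := hy
  have hq := h0_sq'
  obtain ⟨b1, b2⟩ := h0_bd
  have a0 := c1_nonneg t
  have e1 := c1_sq h0t h1t.le
  have a1 : c1 t ≤ 1 := by
    refine le_of_sq2 zero_le_one ?_
    have := sq_nonneg t
    linarith
  obtain ⟨w1, w2, w3, w4⟩ := low_bd h0t' ht'
  have cg : h0 ≤ σ * c1 t * t' - σ' * Wc t' * t := by
    have e : σ * c1 t * (t + t') - (σ * c1 t + σ' * Wc t') * t =
        σ * c1 t * t' - σ' * Wc t' * t := by ring
    have := cross_ge hS (by rw [e]; exact hc)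
    rwa [e] at this
  -- the middle part
  by_cases hmid : 5 * s ≤ t' ∧ t' ≤ h0 - 8 * s
  · right
    refine o2_a1_goal (o2_a1_side hs hs1 hS ?_ hc hmid.1 hmid.2)
    rcases hσ' with rfl | rfl <;> ring
  have hend : t' < 5 * s ∨ h0 - 8 * s < t' := by
    by_contra h
    push Not at h
    exact hmid h
  rcases hσ' with rfl | rfl
  · exfalso
    rcases hσ with rfl | rfl
    · have k1 := mul_le_mul_of_nonneg_right a1 h0t'
      have k2 := mul_nonneg (by linarith : 0 ≤ Wc t') h0t
      linarith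
    · have k1 := mul_nonneg a0 h0t'
      have k2 := mul_nonneg (by linarith : 0 ≤ Wc t') h0t
      linarith
  rcases hσ with rfl | rfl
  · -- the signs `1, -1`
    have hsum : h0 ≤ t + t' := by
      refine o2_a1_sum h0t h0t' ht' ?_ h1t
      have := hS.c1
      rwa [show (1 : ℝ) * c1 t + -1 * Wc t' = c1 t - Wc t' by ring] at this
    rcases hend with h5 | h8
    · by_cases h8 : t + t' ≤ h0 + 8 * s
      · left
        right
        left
        refine ⟨abs_le.2 ⟨by linarith, by linarith⟩, by linarith,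
          abs_le.2 ⟨by linarith, by linarith⟩⟩
      · right
        refine o2_a1_goal ?_
        have k := o2_a1_low hs hs1 h0t' h5 (low_near h0t' (by linarith))
          (by linarith : -c1 t ≤ 1 / 2) (not_le.1 h8)
        linarith
    · by_cases h8' : t ≤ 8 * s
      · left
        left
        exact ⟨h8', abs_le.2 ⟨by linarith, by linarith⟩, abs_le.2 ⟨by linarith, by linarith⟩⟩
      · right
        refine o2_a1_goal ?_
        have k := o2_a1_high hs hs1 h1t h0t' ht' h8 (not_le.1 h8')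
        linarith
  · -- the signs `-1, -1`
    rcases hend with h5 | h8
    · by_cases hlo : t < h0 - 8 * s
      · exfalso
        have k1 := (c1_half h0t h1t.le).1 (by linarith)
        have k2 := mul_le_mul_of_nonneg_right w3 h0t
        have k3 := mul_le_mul_of_nonneg_right k1 h0t'
        have k4 := mul_le_mul_of_nonneg_left hlo.le (by linarith : 0 ≤ h0)
        have k5 := mul_le_mul_of_nonneg_right k4 h0t'
        have k6 := mul_nonneg (mul_nonneg (by linarith : 0 ≤ h0) hs.le) h0t'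
        nlinarith
      rw [not_lt] at hlo
      by_cases h8 : t + t' ≤ h0 + 8 * s
      · left
        right
        left
        refine ⟨abs_le.2 ⟨by linarith, by linarith⟩, by linarith,
          abs_le.2 ⟨by linarith, by linarith⟩⟩
      · right
        refine o2_a1_goal ?_
        have k := o2_a1_low hs hs1 h0t' h5 (low_near h0t' (by linarith))
          ((c1_half h0t h1t.le).2 (by linarith)) (not_le.1 h8)
        linarith
    · exfalso
      have h3 := hS.c3
      have g1 : 0 ≤ c1 t * Wc t' := mul_nonneg a0 (by linarith)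
      have g2 : 0 ≤ t * t' := mul_nonneg h0t h0t'
      have m2 : (h0 - t') ^ 2 ≤ (22 / 100) ^ 2 :=
        pow_le_pow_left₀ (by linarith) (by linarith) 2
      have m3 : (145 / 100 : ℝ) ^ 2 ≤ Wc t' ^ 2 :=
        pow_le_pow_left₀ (by norm_num) (by linarith) 2
      have e : (-1 * c1 t + -1 * Wc t') ^ 2 + (t + t') ^ 2 =
          c1 t ^ 2 + t ^ 2 + 2 * (c1 t * Wc t') + 2 * (t * t') + Wc t' ^ 2 + t' ^ 2 := by ring
      rw [e] at h3
      have := sq_nonneg t'
      linarith

end Pool.Agent.Strip051.LC.E0
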